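import Pool.Agent.TH985.TC.Fin

/-!
# Passing to the infinite product
-/

set_option autoImplicit false

open MeasureTheory ProbabilityTheory Filter
open scoped RealInnerProductSpace ENNReal Topology

namespace Pool.Agent.TH985.TC

open Pool.Agent.PZ871 (E gm)

/-- the infinite product Gaussian measure -/
noncomputable abbrev G : Measure (ℕ → ℝ) := Measure.infinitePi (fun _ : ℕ => gaussianReal 0 1)

/-- the projection onto the first `n` coordinates -/
noncomputable def pr (n : ℕ) : (ℕ → ℝ) →L[ℝ] E n :=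
  ((EuclideanSpace.equiv (Fin n) ℝ).symm : (Fin n → ℝ) →L[ℝ] E n).comp
    (ContinuousLinearMap.pi (fun j : Fin n => ContinuousLinearMap.proj (j : ℕ)))

theorem pr_apply (n : ℕ) (z : ℕ → ℝ) (j : Fin n) : pr n z j = z j := rfl

theorem pr_def (n : ℕ) (z : ℕ → ℝ) : pr n z = WithLp.toLp 2 (fun j : Fin n => z j) := rfl

theorem pi_map (n : ℕ) : G.map (fun (z : ℕ → ℝ) (j : Fin n) => z j) =
    Measure.pi (fun _ : Fin n => gaussianReal 0 1) := by
  symm
  refine Measure.pi_eq fun s hs => ?_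
  rw [Measure.map_apply (by fun_prop) (MeasurableSet.univ_pi hs)]
  have : (fun (z : ℕ → ℝ) (j : Fin n) => z j) ⁻¹' (Set.univ.pi s) =
      Set.pi (Finset.range n : Set ℕ)
        (fun i => if h : i < n then s ⟨i, h⟩ else Set.univ) := by
    ext z
    simp only [Set.mem_preimage, Set.mem_pi, Set.mem_univ, true_implies, Finset.coe_range,
      Set.mem_Iio]
    constructor
    · intro h i hi
      rw [dif_pos hi]
      exact h ⟨i, hi⟩
    · intro h i
      have := h i i.2
      rwa [dif_pos i.2] at this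
  rw [this, Measure.infinitePi_pi]
  · rw [← Fin.prod_univ_eq_prod_range
      (fun i => gaussianReal 0 1 (if h : i < n then s ⟨i, h⟩ else Set.univ)) n]
    refine Finset.prod_congr rfl fun i _ => ?_
    rw [dif_pos i.2]
  · intro i _
    split_ifs with h
    · exact hs _
    · exact MeasurableSet.univ

theorem pr_map (n : ℕ) : G.map (pr n) = gm n := by
  have h : (pr n : (ℕ → ℝ) → E n) = (WithLp.toLp 2) ∘ (fun (z : ℕ → ℝ) (j : Fin n) => z j) := rfl
  rw [h, ← Measure.map_map (by fun_prop) (by fun_prop), pi_map]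
  exact map_pi_eq_stdGaussian

/-- extension by zero -/
noncomputable def ex (m : ℕ) : E m →L[ℝ] (ℕ → ℝ) :=
  ContinuousLinearMap.pi (fun j => if h : j < m then
    (EuclideanSpace.proj (⟨j, h⟩ : Fin m) : E m →L[ℝ] ℝ) else 0)

theorem ex_of_lt {m : ℕ} (v : E m) {j : ℕ} (h : j < m) : ex m v j = v ⟨j, h⟩ := by
  simp [ex, h]

theorem ex_of_ge {m : ℕ} (v : E m) {j : ℕ} (h : m ≤ j) : ex m v j = 0 := by
  simp [ex, not_lt.2 h]

theorem pr_ex {m : ℕ} (v : E m) : pr m (ex m v) = v := by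
  ext j
  rw [pr_apply, ex_of_lt v j.2]

theorem inner_pr (n : ℕ) (y z : ℕ → ℝ) : ⟪pr n y, pr n z⟫ = ∑ j ∈ Finset.range n, y j * z j := by
  rw [← Fin.sum_univ_eq_sum_range (fun j => y j * z j) n, PiLp.inner_apply]
  refine Finset.sum_congr rfl fun j _ => ?_
  rw [pr_apply, pr_apply]
  simp [mul_comm]

theorem inner_ex {m n : ℕ} (hmn : m ≤ n) (v : E m) (z : ℕ → ℝ) :
    ⟪pr n (ex m v), pr n z⟫ = ⟪v, pr m z⟫ := by
  conv_rhs => rw [← pr_ex v]
  rw [inner_pr, inner_pr]
  symm
  refine Finset.sum_subset (Finset.range_mono hmn) fun j _ hj => ?_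
  rw [ex_of_ge v (by simpa using hj), zero_mul]

theorem inner_ex_sub {m n : ℕ} (hmn : m ≤ n) (v q : E m) (z : ℕ → ℝ) :
    ⟪pr n (ex m v), pr n z - pr n (ex m q)⟫ = ⟪v, pr m z - q⟫ := by
  rw [← map_sub, inner_ex hmn, map_sub, pr_ex]

/-- triple sums -/
def K3 (K : Set (ℕ → ℝ)) : Set (ℕ → ℝ) := {x | ∃ a ∈ K, ∃ b ∈ K, ∃ c ∈ K, a + b + c = x}

theorem K3_compact {K : Set (ℕ → ℝ)} (hK : IsCompact K) : IsCompact (K3 K) := by
  have h : K3 K = (fun p : (ℕ → ℝ) × (ℕ → ℝ) × (ℕ → ℝ) => p.1 + p.2.1 + p.2.2) ''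
      (K ×ˢ K ×ˢ K) := by
    ext x
    constructor
    · rintro ⟨a, ha, b, hb, c, hc, h⟩
      exact ⟨(a, b, c), ⟨ha, hb, hc⟩, h⟩
    · rintro ⟨⟨a, b, c⟩, ⟨ha, hb, hc⟩, h⟩
      exact ⟨a, ha, b, hb, c, hc, h⟩
  rw [h]
  exact (hK.prod (hK.prod hK)).image (by fun_prop)

/-- the countable family of test points -/
noncomputable def Dn (i : ℕ × ℕ) : E i.1 := TopologicalSpace.denseSeq (E i.1) i.2

/-- test points outside the projected triple sum -/
def good (K : Set (ℕ → ℝ)) (i : ℕ × ℕ) : Prop := Dn i ∉ pr i.1 '' K3 K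

theorem stage {K : Set (ℕ → ℝ)} (hK : IsCompact K) (hsym : ∀ x ∈ K, -x ∈ K)
    (hμ : G.real Kᶜ ≤ 1/100) (m : ℕ) :
    ∃ θ : ∀ i : ℕ × ℕ, E i.1, (∀ i, ‖θ i‖ ≤ 1) ∧
      (∀ i, i.1 < m → i.2 < m → good K i → ‖θ i‖ = 1) ∧
      9/10 ≤ G.real {z | ∀ i : ℕ × ℕ, i.1 < m → i.2 < m → good K i →
        ⟪θ i, pr i.1 z - Dn i⟫ ≤ 0} := by
  classical
  set S : Finset (ℕ × ℕ) := (Finset.range m ×ˢ Finset.range m).filter (good K) with hS
  have hSm : ∀ i : S, i.1.1 ≤ m := by
    intro i
    have := i.2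
    simp only [hS, Finset.mem_filter, Finset.mem_product, Finset.mem_range] at this
    exact this.1.1.le
  have hSg : ∀ i : S, good K i.1 := by
    intro i
    have := i.2
    simp only [hS, Finset.mem_filter] at this
    exact this.2
  have hKc : IsCompact (pr m '' K) := hK.image (pr m).continuous
  have hKm : MeasurableSet (pr m '' K) := hKc.isClosed.measurableSet
  have hKsym : ∀ x ∈ pr m '' K, -x ∈ pr m '' K := by
    rintro _ ⟨x, hx, rfl⟩
    exact ⟨-x, hsym x hx, by rw [map_neg]⟩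
  have hpm : Measurable (pr m) := (pr m).continuous.measurable
  have hKμ : (gm m).real (pr m '' K)ᶜ ≤ 1/100 := by
    rw [← pr_map m, map_measureReal_apply hpm hKm.compl]
    refine le_trans (measureReal_mono ?_) hμ
    intro z hz hzK
    exact hz ⟨z, hzK, rfl⟩
  obtain ⟨a, ha0, ha⟩ := fin_sep hKc hKsym hKμ (ι := S) (fun i => i.1.1)
    (fun i => (pr m).comp (ex i.1.1))
    (by
      intro i v hv
      have h1 := inner_ex (hSm i) v (ex i.1.1 v)
      simp only [ContinuousLinearMap.comp_apply] at hv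
      rw [hv, inner_zero_left, pr_ex] at h1
      exact inner_self_eq_zero.1 h1.symm)
    (fun i => pr m (ex i.1.1 (Dn i.1)))
    (by
      rintro i _ ⟨a, ha, rfl⟩ _ ⟨b, hb, rfl⟩ _ ⟨c, hc, rfl⟩
      by_contra hcon
      push Not at hcon
      apply hSg i
      refine ⟨a + b + c, ⟨a, ha, b, hb, c, hc, rfl⟩, ?_⟩
      have h1 := hcon (pr i.1.1 (a + b + c) - Dn i.1)
      simp only [ContinuousLinearMap.comp_apply] at h1
      rw [← map_add, ← map_add, inner_ex_sub (hSm i)] at h1
      exact sub_eq_zero.1 (inner_self_eq_zero.1 h1))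
  refine ⟨fun i => if h : i ∈ S then ‖a ⟨i, h⟩‖⁻¹ • a ⟨i, h⟩ else 0, fun i => ?_,
    fun i h1 h2 h3 => ?_, ?_⟩
  · simp only
    split_ifs with h
    · rw [norm_smul, norm_inv, norm_norm]
      exact inv_mul_le_one
    · simp
  · have h : i ∈ S := by
      simp only [hS, Finset.mem_filter, Finset.mem_product, Finset.mem_range]
      exact ⟨⟨h1, h2⟩, h3⟩
    simp only [dif_pos h]
    rw [norm_smul, norm_inv, norm_norm]
    exact inv_mul_cancel₀ (norm_ne_zero_iff.2 (ha0 _))
  · have hmeas : MeasurableSet {y : E m | ∀ i : S,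
        ⟪((pr m).comp (ex i.1.1)) (a i), y - pr m (ex i.1.1 (Dn i.1))⟫ ≤ 0} := by
      simp only [Set.ofPred_forall]
      refine MeasurableSet.iInter fun i => ?_
      refine measurableSet_le ?_ measurable_const
      exact (by fun_prop : Continuous fun y : E m =>
        ⟪((pr m).comp (ex i.1.1)) (a i), y - pr m (ex i.1.1 (Dn i.1))⟫).measurable
    rw [← pr_map m, map_measureReal_apply hpm hmeas] at ha
    refine ha.trans (measureReal_mono ?_)
    intro z hz i h1 h2 h3
    have h : i ∈ S := by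
      simp only [hS, Finset.mem_filter, Finset.mem_product, Finset.mem_range]
      exact ⟨⟨h1, h2⟩, h3⟩
    simp only [dif_pos h]
    have h4 := hz ⟨i, h⟩
    simp only [ContinuousLinearMap.comp_apply] at h4
    rw [inner_ex_sub (hSm ⟨i, h⟩)] at h4
    rw [real_inner_smul_left]
    exact mul_nonpos_of_nonneg_of_nonpos (by positivity) h4

theorem limit {K : Set (ℕ → ℝ)} (hK : IsCompact K) (hsym : ∀ x ∈ K, -x ∈ K)
    (hμ : G.real Kᶜ ≤ 1/100) :
    ∃ θ : ∀ i : ℕ × ℕ, E i.1, (∀ i, good K i → ‖θ i‖ = 1) ∧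
      9/10 ≤ G.real {z | ∀ i : ℕ × ℕ, good K i → ⟪θ i, pr i.1 z - Dn i⟫ ≤ 0} := by
  choose θ h1 h2 h3 using stage hK hsym hμ
  have hc : IsCompact (Set.univ.pi fun i : ℕ × ℕ => Metric.closedBall (0 : E i.1) 1) :=
    isCompact_univ_pi fun i => isCompact_closedBall _ _
  obtain ⟨ϑ, -, φ, hφ, hlim⟩ := hc.tendsto_subseq (x := θ) (fun m i _ => by
    simpa using h1 m i)
  have hlim' : ∀ i, Tendsto (fun k => θ (φ k) i) atTop (𝓝 (ϑ i)) := fun i =>
    (tendsto_pi_nhds.1 hlim) i
  refine ⟨ϑ, fun i hi => ?_, ?_⟩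
  · have h4 : Tendsto (fun k => ‖θ (φ k) i‖) atTop (𝓝 ‖ϑ i‖) := (hlim' i).norm
    refine tendsto_nhds_unique h4 (tendsto_const_nhds.congr' ?_)
    filter_upwards [eventually_gt_atTop (max i.1 i.2)] with k hk
    have hk' : max i.1 i.2 < φ k := lt_of_lt_of_le hk (hφ.le_apply)
    exact (h2 (φ k) i (lt_of_le_of_lt (le_max_left _ _) hk')
      (lt_of_le_of_lt (le_max_right _ _) hk') hi).symm
  · set B : ℕ → Set (ℕ → ℝ) := fun k => {z | ∀ i : ℕ × ℕ, i.1 < φ k → i.2 < φ k → good K i →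
        ⟪θ (φ k) i, pr i.1 z - Dn i⟫ ≤ 0} with hB
    have hBm : ∀ k, MeasurableSet (B k) := by
      intro k
      simp only [hB, Set.ofPred_forall]
      refine MeasurableSet.iInter fun i => MeasurableSet.iInter fun _ => MeasurableSet.iInter
        fun _ => MeasurableSet.iInter fun _ => ?_
      refine measurableSet_le ?_ measurable_const
      exact (by fun_prop : Continuous fun z : ℕ → ℝ =>
        ⟪θ (φ k) i, pr i.1 z - Dn i⟫).measurable
    set U : ℕ → Set (ℕ → ℝ) := fun N => ⋃ k, ⋃ (_ : N ≤ k), B k with hU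
    have hUm : ∀ N, MeasurableSet (U N) := fun N =>
      MeasurableSet.iUnion fun k => MeasurableSet.iUnion fun _ => hBm k
    have hanti : Antitone U := by
      intro N N' hN z hz
      simp only [hU, Set.mem_iUnion] at hz ⊢
      obtain ⟨k, hk, hz⟩ := hz
      exact ⟨k, hN.trans hk, hz⟩
    have hUge : ∀ N, 9/10 ≤ G.real (U N) := by
      intro N
      refine (h3 (φ N)).trans (measureReal_mono ?_ (measure_ne_top G _))
      exact Set.subset_iUnion₂_of_subset N le_rfl subset_rfl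
    have hI : 9/10 ≤ G.real (⋂ N, U N) := by
      have ht : Tendsto (fun N => G (U N)) atTop (𝓝 (G (⋂ N, U N))) :=
        tendsto_measure_iInter_atTop (fun N => (hUm N).nullMeasurableSet) hanti
          ⟨0, measure_ne_top _ _⟩
      have ht' : Tendsto (fun N => G.real (U N)) atTop (𝓝 (G.real (⋂ N, U N))) :=
        (ENNReal.tendsto_toReal (measure_ne_top _ _)).comp ht
      exact ge_of_tendsto' ht' hUge
    refine hI.trans (measureReal_mono ?_)
    intro z hz i hi
    by_contra hcon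
    push Not at hcon
    have h5 : Tendsto (fun k => ⟪θ (φ k) i, pr i.1 z - Dn i⟫) atTop
        (𝓝 ⟪ϑ i, pr i.1 z - Dn i⟫) := (hlim' i).inner tendsto_const_nhds
    have h6 : ∀ᶠ k in atTop, 0 < ⟪θ (φ k) i, pr i.1 z - Dn i⟫ := h5.eventually (lt_mem_nhds hcon)
    obtain ⟨N, hN⟩ := eventually_atTop.1 (h6.and (eventually_gt_atTop (max i.1 i.2)))
    have h7 := Set.mem_iInter.1 hz N
    simp only [hU, Set.mem_iUnion] at h7
    obtain ⟨k, hk, hzk⟩ := h7
    obtain ⟨h8, h9⟩ := hN k hk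
    have hk' : max i.1 i.2 < φ k := lt_of_lt_of_le h9 (hφ.le_apply)
    have := hzk i (lt_of_le_of_lt (le_max_left _ _) hk')
      (lt_of_le_of_lt (le_max_right _ _) hk') hi
    linarith

theorem exists_coord {A : Set (ℕ → ℝ)} (hA : IsClosed A) {z : ℕ → ℝ} (hz : z ∉ A) :
    ∃ n, pr n z ∉ pr n '' A := by
  obtain ⟨I, u, hu, hsub⟩ := isOpen_pi_iff.1 hA.isOpen_compl z hz
  obtain ⟨n, hn⟩ := I.exists_nat_subset_range
  refine ⟨n, ?_⟩
  rintro ⟨y, hy, hyz⟩
  refine hsub (?_ : y ∈ (I : Set ℕ).pi u) hy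
  intro j hj
  have hjn : j < n := by simpa using hn hj
  have h1 : pr n y ⟨j, hjn⟩ = pr n z ⟨j, hjn⟩ := by rw [hyz]
  rw [pr_apply, pr_apply] at h1
  simp only at h1
  rw [h1]
  exact (hu j hj).2

theorem exists_convex {K : Set (ℕ → ℝ)} (hK : IsCompact K) (hsym : ∀ x ∈ K, -x ∈ K)
    (hμ : G.real Kᶜ ≤ 1/100) :
    ∃ C : Set (ℕ → ℝ), IsCompact C ∧ Convex ℝ C ∧ C ⊆ K3 K ∧ 9/10 ≤ G.real C := by
  obtain ⟨θ, hθ1, hθ⟩ := limit hK hsym hμ
  set C : Set (ℕ → ℝ) := {z | ∀ i : ℕ × ℕ, good K i → ⟪θ i, pr i.1 z - Dn i⟫ ≤ 0} with hC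
  have hCclosed : IsClosed C := by
    simp only [hC, Set.ofPred_forall]
    refine isClosed_iInter fun i => isClosed_iInter fun _ => ?_
    exact isClosed_le (by fun_prop) continuous_const
  have hCconv : Convex ℝ C := by
    intro x hx y hy a b ha hb hab i hi
    have e : pr i.1 (a • x + b • y) - Dn i = a • (pr i.1 x - Dn i) + b • (pr i.1 y - Dn i) := by
      rw [map_add, map_smul, map_smul, smul_sub, smul_sub]
      have : Dn i = a • Dn i + b • Dn i := by rw [← add_smul, hab, one_smul]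
      nth_rewrite 1 [this]
      abel
    rw [e, inner_add_right, real_inner_smul_right, real_inner_smul_right]
    have h1 := mul_nonpos_of_nonneg_of_nonpos ha (hx i hi)
    have h2 := mul_nonpos_of_nonneg_of_nonpos hb (hy i hi)
    linarith
  have hK3 := K3_compact hK
  have hsub : C ⊆ K3 K := by
    intro z hz
    by_contra hz3
    obtain ⟨n, hn⟩ := exists_coord hK3.isClosed hz3
    set D : Set (E n) := pr n '' C with hD
    have hDconv : Convex ℝ D := hCconv.linear_image (pr n : (ℕ → ℝ) →ₗ[ℝ] E n)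
    have hDint : (interior D).Nonempty := by
      by_contra hcon
      rw [Set.not_nonempty_iff_eq_empty] at hcon
      have h1 : D ⊆ frontier D := by
        rw [frontier, hcon, Set.sdiff_empty]
        exact subset_closure
      have h2 : (volume : Measure (E n)) D = 0 :=
        measure_mono_null h1 (hDconv.addHaar_frontier volume)
      have h3 : gm n D = 0 := gm_ac n h2
      have h4 : G C ≤ gm n D := by
        rw [← pr_map n]
        refine le_trans (measure_mono ?_)
          (Measure.le_map_apply (pr n).continuous.measurable.aemeasurable D)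
        exact Set.subset_preimage_image _ _
      rw [h3] at h4
      have h5 : G.real C = 0 := by
        rw [measureReal_def, nonpos_iff_eq_zero.1 h4, ENNReal.toReal_zero]
      rw [h5] at hθ
      norm_num at hθ
    obtain ⟨y0, hy0⟩ := hDint
    have hopen : IsOpen (pr n '' K3 K)ᶜ := (hK3.image (pr n).continuous).isClosed.isOpen_compl
    have hne : (interior D ∩ (pr n '' K3 K)ᶜ).Nonempty := by
      have ht : Tendsto (fun t : ℝ => (1 - t) • pr n z + t • y0) (𝓝[>] 0) (𝓝 (pr n z)) := by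
        have hc : Continuous (fun t : ℝ => (1 - t) • pr n z + t • y0) := by fun_prop
        have := hc.tendsto 0
        simp only [sub_zero, one_smul, zero_smul, add_zero] at this
        exact this.mono_left nhdsWithin_le_nhds
      have h1 := ht.eventually (hopen.mem_nhds hn)
      have h2 : ∀ᶠ t : ℝ in 𝓝[>] 0, t ∈ Set.Ioo (0:ℝ) 1 :=
        Ioo_mem_nhdsGT one_pos
      obtain ⟨t, ht1, ht2⟩ := (h1.and h2).exists
      refine ⟨_, ?_, ht1⟩
      exact hDconv.combo_self_interior_mem_interior ⟨z, hz, rfl⟩ hy0 (by linarith [ht2.2])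
        ht2.1 (by ring)
    obtain ⟨k, hk1, hk2⟩ := (TopologicalSpace.denseRange_denseSeq (E n)).exists_mem_open
      (isOpen_interior.inter hopen) hne
    set i : ℕ × ℕ := (n, k) with hi
    have hgood : good K i := hk2
    have hDi : Dn i ∈ interior D := hk1
    have hθi := hθ1 i hgood
    obtain ⟨r, hr, hball⟩ := Metric.mem_nhds_iff.1 (mem_interior_iff_mem_nhds.1 hDi)
    have hmem : Dn i + (r/2) • θ i ∈ D := by
      apply hball
      rw [Metric.mem_ball, dist_eq_norm, add_sub_cancel_left, norm_smul, hθi, mul_one,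
        Real.norm_of_nonneg (by positivity)]
      linarith
    obtain ⟨y, hy, hyD⟩ := hmem
    have h1 := hy i hgood
    have h2 : pr i.1 y = Dn i + (r/2) • θ i := hyD
    rw [h2, add_sub_cancel_left, real_inner_smul_right, real_inner_self_eq_norm_sq, hθi] at h1
    linarith
  exact ⟨C, hK3.of_isClosed_subset hCclosed hsub, hCconv, hsub, hθ⟩

end Pool.Agent.TH985.TC
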