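import Mathlib
import Pool.Agent.PZ871.Defs
import Pool.Agent.PZ871.Gdens
import Pool.Agent.PZ871.Gint
import Pool.Agent.PZ871.Pl
import Pool.Agent.PZ871.Grot
import Pool.Agent.PZ871.Gsq

/-!
# Gaussian tools: Prekopa-Leindler, Cameron-Martin, the heat semigroup
-/

set_option autoImplicit false

open MeasureTheory ProbabilityTheory
open scoped RealInnerProductSpace ENNReal

namespace Pool.Agent.TH985.TC

open Pool.Agent.PZ871 (E gm)

instance gm_prob (n : ℕ) : IsProbabilityMeasure (gm n) := by unfold gm; infer_instance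

/-- lower integrals against the Gaussian measure -/
theorem glint (n : ℕ) (f : E n → ℝ≥0∞) (hf : Measurable f) :
    ∫⁻ x, f x ∂(gm n) =
      ∫⁻ x, ENNReal.ofReal ((2 * Real.pi) ^ (-(n:ℝ)/2) * Real.exp (-‖x‖^2/2)) * f x := by
  rw [Pool.Agent.PZ871.M_gdens.gdens, lintegral_withDensity_eq_lintegral_mul _ (by fun_prop) hf]
  rfl

/-- Gaussian Prekopa-Leindler inequality, midpoint form -/
theorem gpl (n : ℕ) (f g h : E n → ℝ≥0∞) (hf : Measurable f) (hg : Measurable g)
    (hh : Measurable h)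
    (H : ∀ x y, f x * g y ≤ h ((1/2:ℝ) • (x + y)) ^ 2 * ENNReal.ofReal (Real.exp (‖x - y‖^2/4))) :
    (∫⁻ x, f x ∂(gm n)) * (∫⁻ x, g x ∂(gm n)) ≤ (∫⁻ x, h x ∂(gm n)) ^ 2 := by
  rw [glint n f hf, glint n g hg, glint n h hh]
  have hc : (0:ℝ) ≤ (2 * Real.pi) ^ (-(n:ℝ)/2) := by positivity
  have hρ : Measurable (fun x : E n =>
      ENNReal.ofReal ((2 * Real.pi) ^ (-(n:ℝ)/2) * Real.exp (-‖x‖^2/2))) := by fun_prop
  apply Pool.Agent.PZ871.M_pl.pl n _ _ _ (hρ.mul hf) (hρ.mul hg) (hρ.mul hh)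
  intro x y
  set c : ℝ := (2 * Real.pi) ^ (-(n:ℝ)/2) with hcd
  have e1 : ‖x‖^2/2 + ‖y‖^2/2 = ‖(1/2:ℝ) • (x + y)‖^2 + ‖x - y‖^2/4 := by
    have h1 : ‖(1/2:ℝ) • (x + y)‖^2 = (1/4) * ‖x + y‖^2 := by
      rw [norm_smul, mul_pow]
      norm_num
    rw [h1, norm_add_sq_real, norm_sub_sq_real]
    ring
  have e2 : (c * Real.exp (-‖x‖^2/2)) * (c * Real.exp (-‖y‖^2/2)) * Real.exp (‖x - y‖^2/4) =
      (c * Real.exp (-‖(1/2:ℝ) • (x + y)‖^2/2)) ^ 2 := by
    have : Real.exp (-‖x‖^2/2) * Real.exp (-‖y‖^2/2) * Real.exp (‖x - y‖^2/4) =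
        Real.exp (-‖(1/2:ℝ) • (x + y)‖^2/2) ^ 2 := by
      rw [← Real.exp_add, ← Real.exp_add, ← Real.exp_nat_mul]
      congr 1
      push_cast
      linarith
    calc _ = c^2 * (Real.exp (-‖x‖^2/2) * Real.exp (-‖y‖^2/2) * Real.exp (‖x - y‖^2/4)) := by ring
      _ = _ := by rw [this]; ring
  calc ENNReal.ofReal (c * Real.exp (-‖x‖^2/2)) * f x *
        (ENNReal.ofReal (c * Real.exp (-‖y‖^2/2)) * g y)
      = ENNReal.ofReal (c * Real.exp (-‖x‖^2/2)) * ENNReal.ofReal (c * Real.exp (-‖y‖^2/2)) *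
        (f x * g y) := by ring
    _ ≤ ENNReal.ofReal (c * Real.exp (-‖x‖^2/2)) * ENNReal.ofReal (c * Real.exp (-‖y‖^2/2)) *
        (h ((1/2:ℝ) • (x + y)) ^ 2 * ENNReal.ofReal (Real.exp (‖x - y‖^2/4))) := by
        exact mul_le_mul' le_rfl (H x y)
    _ = ENNReal.ofReal ((c * Real.exp (-‖x‖^2/2)) * (c * Real.exp (-‖y‖^2/2)) *
          Real.exp (‖x - y‖^2/4)) * h ((1/2:ℝ) • (x + y)) ^ 2 := by
        rw [ENNReal.ofReal_mul (p := (c * Real.exp (-‖x‖^2/2)) * (c * Real.exp (-‖y‖^2/2)))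
          (by positivity), ENNReal.ofReal_mul (p := c * Real.exp (-‖x‖^2/2)) (by positivity)]
        ring
    _ = (ENNReal.ofReal (c * Real.exp (-‖(1/2:ℝ) • (x + y)‖^2/2)) * h ((1/2:ℝ) • (x + y))) ^ 2 := by
        rw [e2, ENNReal.ofReal_pow (by positivity), mul_pow]
    _ ≤ _ := le_rfl

/-- Cameron-Martin formula for lower integrals -/
theorem cm_lint (n : ℕ) (b : E n) (f : E n → ℝ≥0∞) (hf : Measurable f) :
    ∫⁻ g, f (g + b) ∂(gm n) =
      ∫⁻ g, ENNReal.ofReal (Real.exp (⟪b, g⟫ - ‖b‖^2/2)) * f g ∂(gm n) := by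
  rw [glint n (fun g => f (g + b)) (hf.comp (measurable_add_const b)), glint n _ (by fun_prop),
    ← lintegral_add_right_eq_self (μ := (volume : Measure (E n)))
      (fun x => ENNReal.ofReal ((2 * Real.pi) ^ (-(n:ℝ)/2) * Real.exp (-‖x‖^2/2)) *
        (ENNReal.ofReal (Real.exp (⟪b, x⟫ - ‖b‖^2/2)) * f x)) b]
  refine lintegral_congr fun x => ?_
  rw [← mul_assoc, ← ENNReal.ofReal_mul (by positivity)]
  congr 2
  rw [mul_assoc, ← Real.exp_add]
  congr 2
  rw [norm_add_sq_real, inner_add_right, real_inner_self_eq_norm_sq, real_inner_comm x b]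
  ring

/-- the translated Gaussian measure -/
theorem cm_map (n : ℕ) (b : E n) :
    (gm n).map (fun g => g + b) =
      (gm n).withDensity (fun g => ENNReal.ofReal (Real.exp (⟪b, g⟫ - ‖b‖^2/2))) := by
  refine Measure.ext_of_lintegral _ fun f hf => ?_
  rw [lintegral_map hf (by fun_prop), cm_lint n b f hf,
    lintegral_withDensity_eq_lintegral_mul _ (by fun_prop) hf]
  rfl

/-- Cameron-Martin formula -/
theorem cm_int (n : ℕ) (b : E n) (f : E n → ℝ) (hf : Continuous f) :
    ∫ g, f (g + b) ∂(gm n) = ∫ g, Real.exp (⟪b, g⟫ - ‖b‖^2/2) * f g ∂(gm n) := by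
  have h1 : ∫ g, f (g + b) ∂(gm n) = ∫ g, f g ∂((gm n).map (fun g => g + b)) := by
    rw [integral_map (by fun_prop) hf.aestronglyMeasurable]
  rw [h1, cm_map, integral_withDensity_eq_integral_toReal_smul (by fun_prop)
    (Filter.Eventually.of_forall fun x => ENNReal.ofReal_lt_top)]
  refine integral_congr_ae (Filter.Eventually.of_forall fun x => ?_)
  simp only [smul_eq_mul]
  rw [ENNReal.toReal_ofReal (Real.exp_pos _).le]

/-- integrability in the Cameron-Martin formula -/
theorem cm_integrable (n : ℕ) (b : E n) (f : E n → ℝ) (hf : Continuous f)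
    (hi : Integrable (fun g => f (g + b)) (gm n)) :
    Integrable (fun g => Real.exp (⟪b, g⟫ - ‖b‖^2/2) * f g) (gm n) := by
  have h1 : Integrable f ((gm n).map (fun g => g + b)) :=
    (integrable_map_measure hf.aestronglyMeasurable (by fun_prop)).2 hi
  rw [cm_map, integrable_withDensity_iff_integrable_smul' (by fun_prop)
    (Filter.Eventually.of_forall fun x => ENNReal.ofReal_lt_top)] at h1
  refine h1.congr (Filter.Eventually.of_forall fun x => ?_)
  simp only [smul_eq_mul]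
  rw [ENNReal.toReal_ofReal (Real.exp_pos _).le]

/-- the sum of two independent Gaussian vectors -/
theorem conv_map (n : ℕ) (s t : ℝ) (hs : 0 ≤ s) (ht : 0 ≤ t) :
    ((gm n).prod (gm n)).map (fun p : E n × E n => Real.sqrt t • p.1 + Real.sqrt s • p.2) =
      (gm n).map (fun g => Real.sqrt (s + t) • g) := by
  rcases eq_or_lt_of_le (add_nonneg hs ht) with h0 | h0
  · have hs0 : s = 0 := by linarith
    have ht0 : t = 0 := by linarith
    subst hs0; subst ht0
    simp only [Real.sqrt_zero, zero_smul, add_zero]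
    rw [Measure.map_const, Measure.map_const]
    simp
  · set r : ℝ := Real.sqrt (s + t) with hr
    have hr0 : 0 < r := Real.sqrt_pos.2 h0
    have hr2 : r ^ 2 = s + t := Real.sq_sqrt h0.le
    have hmp := Pool.Agent.PZ871.M_grot.grot n (Real.sqrt t / r) (Real.sqrt s / r) (by
      rw [div_pow, div_pow, Real.sq_sqrt ht, Real.sq_sqrt hs, hr2]
      field_simp
      ring)
    have h1 : MeasurePreserving (fun p : E n × E n =>
        (Real.sqrt t / r) • p.1 + (Real.sqrt s / r) • p.2) ((gm n).prod (gm n)) (gm n) :=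
      measurePreserving_fst.comp hmp
    have h2 : (fun p : E n × E n => Real.sqrt t • p.1 + Real.sqrt s • p.2) =
        (fun g => r • g) ∘ (fun p : E n × E n =>
          (Real.sqrt t / r) • p.1 + (Real.sqrt s / r) • p.2) := by
      funext p
      simp only [Function.comp_apply, smul_add, smul_smul]
      congr 2 <;> field_simp
    rw [h2, ← Measure.map_map (by fun_prop) h1.measurable, h1.map_eq]

/-- polynomial moments -/
theorem norm_int (n : ℕ) : Integrable (fun g : E n => ‖g‖) (gm n) := by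
  have : IsGaussian (gm n) := by unfold gm; infer_instance
  exact (IsGaussian.integrable_id (μ := gm n)).norm

/-- third moment -/
theorem norm_cube_int (n : ℕ) : Integrable (fun g : E n => ‖g‖^3) (gm n) := by
  have : IsGaussian (gm n) := by unfold gm; infer_instance
  have h := IsGaussian.memLp_id (gm n) 3 (by norm_num)
  exact_mod_cast h.integrable_norm_pow (by norm_num)

/-- the semigroup property -/
theorem semigroup {F : Type*} [NormedAddCommGroup F] [NormedSpace ℝ F] (n : ℕ)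
    (s t : ℝ) (hs : 0 ≤ s) (ht : 0 ≤ t) (φ : E n → F) (hφ : StronglyMeasurable φ) (A B : ℝ)
    (hb : ∀ z, ‖φ z‖ ≤ A + B * ‖z‖) (y : E n) :
    Integrable (fun p : E n × E n => φ (y + Real.sqrt t • p.1 + Real.sqrt s • p.2))
      ((gm n).prod (gm n)) ∧
    ∫ g, ∫ g', φ (y + Real.sqrt t • g + Real.sqrt s • g') ∂(gm n) ∂(gm n) =
      ∫ g, φ (y + Real.sqrt (s + t) • g) ∂(gm n) := by
  have hm : Measurable (fun p : E n × E n => y + Real.sqrt t • p.1 + Real.sqrt s • p.2) := by
    fun_prop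
  have hi : Integrable (fun p : E n × E n => φ (y + Real.sqrt t • p.1 + Real.sqrt s • p.2))
      ((gm n).prod (gm n)) := by
    have h1 : Integrable (fun p : E n × E n => ‖p.1‖) ((gm n).prod (gm n)) :=
      (norm_int n).comp_fst (gm n)
    have h2 : Integrable (fun p : E n × E n => ‖p.2‖) ((gm n).prod (gm n)) :=
      (norm_int n).comp_snd (gm n)
    have h3 : Integrable (fun p : E n × E n => |A| + |B| * (‖y‖ + Real.sqrt t * ‖p.1‖ +
        Real.sqrt s * ‖p.2‖)) ((gm n).prod (gm n)) :=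
      (integrable_const _).add ((((integrable_const _).add (h1.const_mul _)).add
        (h2.const_mul _)).const_mul _)
    refine h3.mono' (hφ.comp_measurable hm).aestronglyMeasurable
      (Filter.Eventually.of_forall fun p => ?_)
    refine (hb _).trans ?_
    have h4 : ‖y + Real.sqrt t • p.1 + Real.sqrt s • p.2‖ ≤
        ‖y‖ + Real.sqrt t * ‖p.1‖ + Real.sqrt s * ‖p.2‖ := by
      refine (norm_add_le _ _).trans ?_
      refine add_le_add ((norm_add_le _ _).trans ?_) ?_
      · rw [norm_smul, Real.norm_of_nonneg (Real.sqrt_nonneg _)]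
      · rw [norm_smul, Real.norm_of_nonneg (Real.sqrt_nonneg _)]
    calc A + B * ‖y + Real.sqrt t • p.1 + Real.sqrt s • p.2‖
        ≤ |A| + |B| * ‖y + Real.sqrt t • p.1 + Real.sqrt s • p.2‖ :=
          add_le_add (le_abs_self A) (mul_le_mul_of_nonneg_right (le_abs_self B) (norm_nonneg _))
      _ ≤ _ := add_le_add le_rfl (mul_le_mul_of_nonneg_left h4 (abs_nonneg B))
  refine ⟨hi, ?_⟩
  have e1 : ∫ g, ∫ g', φ (y + Real.sqrt t • g + Real.sqrt s • g') ∂(gm n) ∂(gm n) =
      ∫ p : E n × E n, φ (y + Real.sqrt t • p.1 + Real.sqrt s • p.2) ∂((gm n).prod (gm n)) :=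
    (integral_prod _ hi).symm
  have hsm : StronglyMeasurable (fun z => φ (y + z)) := hφ.comp_measurable (measurable_const_add y)
  rw [e1]
  have e2 : ∫ g, φ (y + Real.sqrt (s + t) • g) ∂(gm n) =
      ∫ z, φ (y + z) ∂((gm n).map (fun g => Real.sqrt (s + t) • g)) := by
    rw [integral_map (by fun_prop) hsm.aestronglyMeasurable]
  rw [e2, ← conv_map n s t hs ht, integral_map (by fun_prop) hsm.aestronglyMeasurable]
  simp_rw [add_assoc]

end Pool.Agent.TH985.TC
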