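import Pool.Agent.TH985.TC.Base

/-!
# Log-concave weights: heat flow, concentration, moments
-/

set_option autoImplicit false

open MeasureTheory ProbabilityTheory
open scoped RealInnerProductSpace ENNReal

namespace Pool.Agent.TH985.TC

open Pool.Agent.PZ871 (E gm)

/-- log-concave weights -/
structure Wt (n : ℕ) (w : E n → ℝ) : Prop where
  cont : Continuous w
  pos : ∀ x, 0 < w x
  le1 : ∀ x, w x ≤ 1
  mid : ∀ x y, w x * w y ≤ w ((1/2:ℝ) • (x + y)) ^ 2

/-- the heat semigroup -/
noncomputable def T {F : Type*} [NormedAddCommGroup F] [NormedSpace ℝ F] (n : ℕ) (s : ℝ)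
    (φ : E n → F) (y : E n) : F := ∫ g, φ (y + Real.sqrt s • g) ∂(gm n)

variable {n : ℕ}

theorem Wt.norm_le {w : E n → ℝ} (hw : Wt n w) (x : E n) : ‖w x‖ ≤ 1 := by
  rw [Real.norm_of_nonneg (hw.pos x).le]
  exact hw.le1 x

theorem Wt.integrable {w : E n → ℝ} (hw : Wt n w) : Integrable w (gm n) :=
  (integrable_const (1:ℝ)).mono' hw.cont.aestronglyMeasurable
    (Filter.Eventually.of_forall hw.norm_le)

/-- the weight after an affine change of variables -/
theorem Wt.affine {w : E n → ℝ} (hw : Wt n w) (y : E n) (r : ℝ) :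
    Wt n (fun g => w (y + r • g)) where
  cont := hw.cont.comp (by fun_prop)
  pos := fun x => hw.pos _
  le1 := fun x => hw.le1 _
  mid := fun x z => by
    have := hw.mid (y + r • x) (y + r • z)
    have e : (1/2:ℝ) • (y + r • x + (y + r • z)) = y + r • ((1/2:ℝ) • (x + z)) := by
      module
    rw [e] at this
    exact this

theorem Wt.integral_pos {w : E n → ℝ} (hw : Wt n w) : 0 < ∫ g, w g ∂(gm n) := by
  rw [integral_pos_iff_support_of_nonneg (fun x => (hw.pos x).le) hw.integrable]
  have : Function.support w = Set.univ := by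
    ext x
    simp [(hw.pos x).ne']
  rw [this, measure_univ]
  exact one_pos

theorem Wt.integral_le {w : E n → ℝ} (hw : Wt n w) : ∫ g, w g ∂(gm n) ≤ 1 := by
  have h := integral_mono hw.integrable (integrable_const (1:ℝ)) (fun x => hw.le1 x)
  simpa using h

/-- the heat flow preserves log-concave weights -/
theorem Wt.heat {w : E n → ℝ} (hw : Wt n w) (s : ℝ) : Wt n (T n s w) where
  cont := by
    unfold T
    refine continuous_of_dominated (bound := fun _ => (1:ℝ)) (fun y => ?_) (fun y => ?_)
      (integrable_const _) ?_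
    · exact (hw.cont.comp (by fun_prop)).aestronglyMeasurable
    · exact Filter.Eventually.of_forall fun g => hw.norm_le _
    · exact Filter.Eventually.of_forall fun g => hw.cont.comp (by fun_prop)
  pos := fun y => (hw.affine y (Real.sqrt s)).integral_pos
  le1 := fun y => (hw.affine y (Real.sqrt s)).integral_le
  mid := fun x y => by
    set r := Real.sqrt s with hr
    have hx := hw.affine x r
    have hy := hw.affine y r
    have hm := hw.affine ((1/2:ℝ) • (x + y)) r
    have key := gpl n (fun g => ENNReal.ofReal (w (x + r • g)))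
      (fun g => ENNReal.ofReal (w (y + r • g)))
      (fun g => ENNReal.ofReal (w ((1/2:ℝ) • (x + y) + r • g)))
      (hx.cont.measurable.ennreal_ofReal) (hy.cont.measurable.ennreal_ofReal)
      (hm.cont.measurable.ennreal_ofReal) (by
        intro a b
        rw [← ENNReal.ofReal_mul (hw.pos _).le, ← ENNReal.ofReal_pow (hw.pos _).le]
        have h1 := hw.mid (x + r • a) (y + r • b)
        have e : (1/2:ℝ) • (x + r • a + (y + r • b)) =
            (1/2:ℝ) • (x + y) + r • ((1/2:ℝ) • (a + b)) := by module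
        rw [e] at h1
        calc ENNReal.ofReal (w (x + r • a) * w (y + r • b))
            ≤ ENNReal.ofReal (w ((1/2:ℝ) • (x + y) + r • ((1/2:ℝ) • (a + b))) ^ 2) :=
              ENNReal.ofReal_le_ofReal h1
          _ = ENNReal.ofReal (w ((1/2:ℝ) • (x + y) + r • ((1/2:ℝ) • (a + b))) ^ 2) * 1 := by
              rw [mul_one]
          _ ≤ _ := by
              refine mul_le_mul' le_rfl ?_
              rw [← ENNReal.ofReal_one]
              exact ENNReal.ofReal_le_ofReal (Real.one_le_exp (by positivity)))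
    have e1 : ∀ z : E n, ∫⁻ g, ENNReal.ofReal (w (z + r • g)) ∂(gm n) =
        ENNReal.ofReal (T n s w z) := by
      intro z
      have hz := hw.affine z r
      exact (ofReal_integral_eq_lintegral_ofReal hz.integrable
        (Filter.Eventually.of_forall fun g => (hw.pos _).le)).symm
    rw [e1, e1, e1] at key
    have p1 : 0 ≤ T n s w x := hx.integral_pos.le
    have p2 : 0 ≤ T n s w ((1/2:ℝ) • (x + y)) := hm.integral_pos.le
    rw [← ENNReal.ofReal_mul p1, ← ENNReal.ofReal_pow p2,
      ENNReal.ofReal_le_ofReal_iff (by positivity)] at key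
    exact key

/-- Maurey type inequality for log-concave weights -/
theorem maurey {u : E n → ℝ} (hu : Wt n u) (φ : E n → ℝ)
    (hφ : ∀ x y, |φ x - φ y| ≤ ‖x - y‖) :
    Integrable (fun g => Real.exp (φ g) * u g) (gm n) ∧
    Integrable (fun g => Real.exp (-φ g) * u g) (gm n) ∧
    (∫ g, Real.exp (φ g) * u g ∂(gm n)) * (∫ g, Real.exp (-φ g) * u g ∂(gm n)) ≤
      Real.exp 1 * (∫ g, u g ∂(gm n)) ^ 2 := by
  have hcφ : Continuous φ := by
    refine (LipschitzWith.of_dist_le_mul (K := 1) fun x y => ?_).continuous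
    rw [Real.dist_eq, dist_eq_norm, NNReal.coe_one, one_mul]
    exact hφ x y
  have c1 : Continuous (fun g => Real.exp (φ g) * u g) := (hcφ.rexp).mul hu.cont
  have c2 : Continuous (fun g => Real.exp (-φ g) * u g) := (hcφ.neg.rexp).mul hu.cont
  have p1 : ∀ g, 0 < Real.exp (φ g) * u g := fun g => mul_pos (Real.exp_pos _) (hu.pos g)
  have p2 : ∀ g, 0 < Real.exp (-φ g) * u g := fun g => mul_pos (Real.exp_pos _) (hu.pos g)
  have key := gpl n (fun g => ENNReal.ofReal (Real.exp (φ g) * u g))
    (fun g => ENNReal.ofReal (Real.exp (-φ g) * u g))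
    (fun g => ENNReal.ofReal (Real.exp (1/2) * u g))
    c1.measurable.ennreal_ofReal c2.measurable.ennreal_ofReal
    (hu.cont.measurable.const_mul _).ennreal_ofReal (by
      intro x y
      rw [← ENNReal.ofReal_mul (p1 x).le,
        ← ENNReal.ofReal_pow (mul_pos (Real.exp_pos _) (hu.pos _)).le,
        ← ENNReal.ofReal_mul (by positivity)]
      apply ENNReal.ofReal_le_ofReal
      have h1 := hu.mid x y
      have h2 : φ x - φ y ≤ 1 + ‖x - y‖^2/4 := by
        have := (le_abs_self _).trans (hφ x y)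
        nlinarith [sq_nonneg (‖x - y‖/2 - 1)]
      calc Real.exp (φ x) * u x * (Real.exp (-φ y) * u y)
          = Real.exp (φ x - φ y) * (u x * u y) := by
            rw [sub_eq_add_neg, Real.exp_add]; ring
        _ ≤ Real.exp (1 + ‖x - y‖^2/4) * u ((1/2:ℝ) • (x + y)) ^ 2 :=
            mul_le_mul (Real.exp_le_exp.2 h2) h1 (mul_pos (hu.pos _) (hu.pos _)).le
              (Real.exp_pos _).le
        _ = (Real.exp (1/2) * u ((1/2:ℝ) • (x + y))) ^ 2 * Real.exp (‖x - y‖^2/4) := by
            rw [mul_pow, ← Real.exp_nat_mul, Real.exp_add]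
            norm_num
            ring)
  have hI : ∫⁻ g, ENNReal.ofReal (Real.exp (1/2) * u g) ∂(gm n) =
      ENNReal.ofReal (Real.exp (1/2) * ∫ g, u g ∂(gm n)) := by
    rw [← integral_const_mul]
    exact (ofReal_integral_eq_lintegral_ofReal (hu.integrable.const_mul _)
      (Filter.Eventually.of_forall fun g => (mul_pos (Real.exp_pos _) (hu.pos g)).le)).symm
  rw [hI] at key
  have hne : ∀ f : E n → ℝ, Continuous f → (∀ g, 0 < f g) →
      ∫⁻ g, ENNReal.ofReal (f g) ∂(gm n) ≠ 0 := by
    intro f hf hp h0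
    rw [lintegral_eq_zero_iff hf.measurable.ennreal_ofReal] at h0
    have : (gm n) Set.univ = 0 := by
      refine measure_mono_null (fun x _ => ?_) h0
      simp [hp x]
    rw [measure_univ] at this
    exact one_ne_zero this
  have hfin1 : ∫⁻ g, ENNReal.ofReal (Real.exp (φ g) * u g) ∂(gm n) ≠ ⊤ := by
    intro h
    rw [h, ENNReal.top_mul (hne _ c2 p2)] at key
    exact absurd key (by simp [ENNReal.pow_eq_top_iff])
  have hfin2 : ∫⁻ g, ENNReal.ofReal (Real.exp (-φ g) * u g) ∂(gm n) ≠ ⊤ := by
    intro h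
    rw [h, ENNReal.mul_top (hne _ c1 p1)] at key
    exact absurd key (by simp [ENNReal.pow_eq_top_iff])
  have i1 : Integrable (fun g => Real.exp (φ g) * u g) (gm n) :=
    (lintegral_ofReal_ne_top_iff_integrable c1.aestronglyMeasurable
      (Filter.Eventually.of_forall fun g => (p1 g).le)).1 hfin1
  have i2 : Integrable (fun g => Real.exp (-φ g) * u g) (gm n) :=
    (lintegral_ofReal_ne_top_iff_integrable c2.aestronglyMeasurable
      (Filter.Eventually.of_forall fun g => (p2 g).le)).1 hfin2
  refine ⟨i1, i2, ?_⟩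
  rw [← ofReal_integral_eq_lintegral_ofReal i1 (Filter.Eventually.of_forall fun g => (p1 g).le),
    ← ofReal_integral_eq_lintegral_ofReal i2 (Filter.Eventually.of_forall fun g => (p2 g).le),
    ← ENNReal.ofReal_mul (integral_nonneg fun g => (p1 g).le),
    ← ENNReal.ofReal_pow (mul_pos (Real.exp_pos _) hu.integral_pos).le,
    ENNReal.ofReal_le_ofReal_iff (by positivity)] at key
  refine key.trans (le_of_eq ?_)
  rw [mul_pow, ← Real.exp_nat_mul]
  norm_num

/-- second and third moments of a centred Lipschitz function under a log-concave weight -/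
theorem moments {u : E n → ℝ} (hu : Wt n u) (φ : E n → ℝ)
    (hφ : ∀ x y, |φ x - φ y| ≤ ‖x - y‖) (hφi : Integrable (fun g => u g * φ g) (gm n))
    (h0 : ∫ g, u g * φ g ∂(gm n) = 0) :
    Integrable (fun g => u g * φ g ^ 2) (gm n) ∧
    ∫ g, u g * φ g ^ 2 ∂(gm n) ≤ 4 * ∫ g, u g ∂(gm n) ∧
    Integrable (fun g => u g * |φ g| ^ 3) (gm n) ∧
    ∫ g, u g * |φ g| ^ 3 ∂(gm n) ≤ 36 * ∫ g, u g ∂(gm n) := by
  obtain ⟨i1, i2, hm⟩ := maurey hu φ hφ
  have hcφ : Continuous φ := by
    refine (LipschitzWith.of_dist_le_mul (K := 1) fun x y => ?_).continuous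
    rw [Real.dist_eq, dist_eq_norm, NNReal.coe_one, one_mul]
    exact hφ x y
  set I := ∫ g, u g ∂(gm n) with hI
  have hIpos : 0 < I := hu.integral_pos
  set A := ∫ g, Real.exp (φ g) * u g ∂(gm n) with hA
  set B := ∫ g, Real.exp (-φ g) * u g ∂(gm n) with hB
  have hAI : I ≤ A := by
    have : ∫ g, (u g + u g * φ g) ∂(gm n) ≤ A := by
      refine integral_mono (hu.integrable.add hφi) i1 fun g => ?_
      have := Real.add_one_le_exp (φ g)
      nlinarith [hu.pos g]
    rw [integral_add hu.integrable hφi, h0, add_zero] at this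
    exact this
  have hBI : I ≤ B := by
    have : ∫ g, (u g - u g * φ g) ∂(gm n) ≤ B := by
      refine integral_mono (hu.integrable.sub hφi) i2 fun g => ?_
      have := Real.add_one_le_exp (-φ g)
      nlinarith [hu.pos g]
    rw [integral_sub hu.integrable hφi, h0, sub_zero] at this
    exact this
  have hAe : A ≤ Real.exp 1 * I := by
    have h1 : A * I ≤ Real.exp 1 * I ^ 2 :=
      (mul_le_mul_of_nonneg_left hBI (hIpos.le.trans hAI)).trans hm
    have h2 : A * I ≤ (Real.exp 1 * I) * I := by rw [pow_two] at h1; linarith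
    exact le_of_mul_le_mul_right h2 hIpos
  have hBe : B ≤ Real.exp 1 * I := by
    have h1 : I * B ≤ Real.exp 1 * I ^ 2 :=
      (mul_le_mul_of_nonneg_right hAI (hIpos.le.trans hBI)).trans hm
    have h2 : B * I ≤ (Real.exp 1 * I) * I := by rw [pow_two] at h1; linarith
    exact le_of_mul_le_mul_right h2 hIpos
  have hexp : Real.exp 1 < 3 := lt_trans Real.exp_one_lt_d9 (by norm_num)
  have hsq : ∀ t : ℝ, t ^ 2 ≤ Real.exp t + Real.exp (-t) - 2 := by
    intro t
    have h1 : |t| / 2 ≤ Real.sinh (|t| / 2) := Real.self_le_sinh_iff.2 (by positivity)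
    have h2 : Real.cosh t = 1 + 2 * Real.sinh (|t| / 2) ^ 2 := by
      rw [← Real.cosh_abs, show |t| = 2 * (|t| / 2) by ring, Real.cosh_two_mul, Real.cosh_sq]
      ring_nf
    rw [Real.cosh_eq] at h2
    have h3 : (|t| / 2) ^ 2 ≤ Real.sinh (|t| / 2) ^ 2 := pow_le_pow_left₀ (by positivity) h1 2
    have h4 : (|t| / 2) ^ 2 = t ^ 2 / 4 := by rw [div_pow, sq_abs]; norm_num
    linarith
  have hcu : ∀ t : ℝ, |t| ^ 3 ≤ 6 * (Real.exp t + Real.exp (-t)) := by
    intro t
    have h1 : |t| ^ 3 / 6 ≤ Real.exp |t| := by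
      have := Real.pow_div_factorial_le_exp |t| (abs_nonneg t) 3
      norm_num [Nat.factorial] at this
      exact this
    have h2 : Real.exp |t| ≤ Real.exp t + Real.exp (-t) := by
      rcases abs_cases t with ⟨h, _⟩ | ⟨h, _⟩ <;> rw [h] <;>
        nlinarith [Real.exp_pos t, Real.exp_pos (-t)]
    linarith
  have j2 : Integrable (fun g => Real.exp (φ g) * u g + Real.exp (-φ g) * u g - 2 * u g) (gm n) :=
    (i1.add i2).sub (hu.integrable.const_mul 2)
  have j3 : Integrable (fun g => 6 * (Real.exp (φ g) * u g + Real.exp (-φ g) * u g)) (gm n) :=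
    (i1.add i2).const_mul 6
  have b2 : ∀ g, u g * φ g ^ 2 ≤ Real.exp (φ g) * u g + Real.exp (-φ g) * u g - 2 * u g := by
    intro g
    nlinarith [hsq (φ g), hu.pos g]
  have b3 : ∀ g, u g * |φ g| ^ 3 ≤ 6 * (Real.exp (φ g) * u g + Real.exp (-φ g) * u g) := by
    intro g
    nlinarith [hcu (φ g), hu.pos g]
  have k2 : Integrable (fun g => u g * φ g ^ 2) (gm n) := by
    refine j2.mono' (hu.cont.mul (hcφ.pow 2)).aestronglyMeasurable
      (Filter.Eventually.of_forall fun g => ?_)
    rw [Real.norm_of_nonneg (mul_nonneg (hu.pos g).le (sq_nonneg _))]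
    exact b2 g
  have k3 : Integrable (fun g => u g * |φ g| ^ 3) (gm n) := by
    refine j3.mono' (hu.cont.mul (hcφ.abs.pow 3)).aestronglyMeasurable
      (Filter.Eventually.of_forall fun g => ?_)
    rw [Real.norm_of_nonneg (mul_nonneg (hu.pos g).le (by positivity))]
    exact b3 g
  refine ⟨k2, ?_, k3, ?_⟩
  · have h := integral_mono k2 j2 b2
    have e : ∫ g, (Real.exp (φ g) * u g + Real.exp (-φ g) * u g - 2 * u g) ∂(gm n) =
        A + B - 2 * I := by
      have i12 : Integrable (fun g => Real.exp (φ g) * u g + Real.exp (-φ g) * u g) (gm n) :=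
        i1.add i2
      rw [integral_sub i12 (hu.integrable.const_mul 2), integral_add i1 i2,
        integral_const_mul]
    rw [e] at h
    nlinarith
  · have h := integral_mono k3 j3 b3
    have e : ∫ g, 6 * (Real.exp (φ g) * u g + Real.exp (-φ g) * u g) ∂(gm n) =
        6 * (A + B) := by
      rw [integral_const_mul, integral_add i1 i2]
    rw [e] at h
    nlinarith

end Pool.Agent.TH985.TC
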