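import Pool.Agent.TH985.TC.Cut

/-!
# A log-concave tilt with large mass on `K` has its barycentre in `K + K + K`
-/

set_option autoImplicit false

open MeasureTheory ProbabilityTheory
open scoped RealInnerProductSpace ENNReal

namespace Pool.Agent.TH985.TC

open Pool.Agent.PZ871 (E gm)

variable {n : ℕ}

theorem near_pt {K : Set (E n)} (hK : IsCompact K) {δ : ℝ} (hδ : 0 < δ) {b : E n}
    (hb : b ∈ Metric.cthickening δ K) : ∃ b' ∈ K, dist b b' ≤ δ := by
  rw [hK.cthickening_eq_biUnion_closedBall hδ.le] at hb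
  simp only [Set.mem_iUnion, Metric.mem_closedBall, exists_prop] at hb
  exact hb

theorem exists_margin {K : Set (E n)} (hK : IsCompact K) {x : E n}
    (hnot : ∀ a ∈ K, ∀ b ∈ K, ∀ c ∈ K, a + b + c ≠ x) :
    ∃ δ : ℝ, 0 < δ ∧ ∀ a ∈ K, ∀ b ∈ Metric.cthickening δ K, ∀ c ∈ Metric.cthickening δ K,
      a + b + c ≠ x := by
  set S : Set (E n) := (fun p : E n × E n × E n => p.1 + p.2.1 + p.2.2) '' (K ×ˢ K ×ˢ K) with hS
  have hSc : IsCompact S := (hK.prod (hK.prod hK)).image (by fun_prop)
  have hx : x ∉ S := by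
    rintro ⟨⟨a, b, c⟩, ⟨ha, hb, hc⟩, h⟩
    exact hnot a ha b hb c hc h
  obtain ⟨r, hr, hball⟩ := Metric.mem_nhds_iff.1 (hSc.isClosed.isOpen_compl.mem_nhds hx)
  refine ⟨r / 4, by positivity, fun a ha b hb c hc h => ?_⟩
  obtain ⟨b', hb', hbd⟩ := near_pt hK (by positivity) hb
  obtain ⟨c', hc', hcd⟩ := near_pt hK (by positivity) hc
  have h1 : a + b' + c' ∈ Metric.ball x r := by
    rw [Metric.mem_ball, ← h, dist_eq_norm]
    have e : a + b' + c' - (a + b + c) = (b' - b) + (c' - c) := by abel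
    rw [e]
    refine (norm_add_le _ _).trans_lt ?_
    rw [dist_eq_norm, norm_sub_rev] at hbd hcd
    linarith
  exact hball h1 ⟨⟨a, b', c'⟩, ⟨ha, hb', hc'⟩, rfl⟩

theorem core {K : Set (E n)} (hK : IsCompact K) (hsym : ∀ x ∈ K, -x ∈ K)
    (hμ : (gm n).real Kᶜ ≤ 1/100) {w : E n → ℝ} (hw : Wt n w) {x : E n}
    (hx : (∫ g, w g ∂(gm n)) • x = ∫ g, w g • g ∂(gm n))
    (hnot : ∀ a ∈ K, ∀ b ∈ K, ∀ c ∈ K, a + b + c ≠ x) :
    ∫ g in K, w g ∂(gm n) ≤ (1/50) * ∫ g, w g ∂(gm n) := by
  classical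
  obtain ⟨δ, hδ, hδnot⟩ := exists_margin hK hnot
  obtain ⟨f, L, Q, C, hC, hf, hf01, hf0, hf1⟩ := exists_cutoff K hK hδ
  set Kd := Metric.cthickening δ K with hKd
  have hKdc : IsCompact Kd := hK.cthickening
  have hKsym : ∀ b ∈ Kd, -b ∈ Kd := by
    intro b hb
    obtain ⟨b', hb', hbd⟩ := near_pt hK hδ hb
    refine Metric.mem_cthickening_of_dist_le (-b) (-b') δ K (hsym b' hb') ?_
    rw [dist_neg_neg]
    exact hbd
  set S : Set (E n) := (fun p : E n × E n => p.1 + p.2) '' (Kd ×ˢ Kd) with hS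
  have hSc : IsCompact S := (hKdc.prod hKdc).image (by fun_prop)
  have hSm : MeasurableSet S := hSc.isClosed.measurableSet
  set h : E n → ℝ := fun z => if z ∈ S then 0 else 1 with hh
  have hhm : Measurable h := Measurable.ite hSm measurable_const measurable_const
  have hhb : ∀ z, |h z| ≤ 1 := by
    intro z
    simp only [hh]
    split_ifs <;> simp
  have hhab : ∀ a b, h (a + b) ≤ f a + f b := by
    intro a b
    simp only [hh]
    split_ifs with hab
    · exact add_nonneg (hf01 a).1 (hf01 b).1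
    · by_cases ha : a ∈ Kd
      · by_cases hb : b ∈ Kd
        · exact absurd ⟨⟨a, b⟩, ⟨ha, hb⟩, rfl⟩ hab
        · rw [hf1 b hb]
          linarith [(hf01 a).1]
      · rw [hf1 a ha]
        linarith [(hf01 b).1]
  have hIpos := hw.integral_pos
  have hx' : x = (∫ g, w g ∂(gm n))⁻¹ • ∫ g, w g • g ∂(gm n) := by
    rw [← hx, smul_smul, inv_mul_cancel₀ hIpos.ne', one_smul]
  have key := main_ineq hw hf hC hhm hhb hhab x hx'
  have hKm : MeasurableSet K := hK.isClosed.measurableSet
  have h1 : ∫ g in K, w g ∂(gm n) ≤ ∫ g, h (g - x) * w g ∂(gm n) := by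
    rw [← integral_indicator hKm]
    have hint : Integrable (fun g => h (g - x) * w g) (gm n) := by
      refine hw.integrable.mono' ((hhm.comp (measurable_sub_const x)).mul
        hw.cont.measurable).aestronglyMeasurable (Filter.Eventually.of_forall fun g => ?_)
      rw [norm_mul, Real.norm_eq_abs, Real.norm_of_nonneg (hw.pos g).le]
      exact mul_le_of_le_one_left (hw.pos g).le (hhb _)
    refine integral_mono (hw.integrable.indicator hKm) hint fun y => ?_
    by_cases hy : y ∈ K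
    · rw [Set.indicator_of_mem hy]
      have : y - x ∉ S := by
        rintro ⟨⟨b, c⟩, ⟨hb, hc⟩, hbc⟩
        simp only at hbc
        refine hδnot y hy (-b) (hKsym b hb) (-c) (hKsym c hc) ?_
        have : x = y - (b + c) := by rw [hbc]; abel
        rw [this]
        abel
      simp [hh, this]
    · rw [Set.indicator_of_notMem hy]
      simp only [hh]
      split_ifs <;> simp [(hw.pos y).le]
  have h2 : ∫ g, f g ∂(gm n) ≤ 1/100 := by
    have hfi : Integrable f (gm n) := (integrable_const (1:ℝ)).mono'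
      hf.cont.aestronglyMeasurable (Filter.Eventually.of_forall fun g => hf.bd g)
    have h3 : ∫ g, f g ∂(gm n) ≤ ∫ g, (Kᶜ).indicator (fun _ => (1:ℝ)) g ∂(gm n) := by
      refine integral_mono hfi ((integrable_const (1:ℝ)).indicator hKm.compl) fun y => ?_
      by_cases hy : y ∈ K
      · rw [Set.indicator_of_notMem (by simpa using hy), hf0 y hy]
      · rw [Set.indicator_of_mem (by simpa using hy)]
        exact (hf01 y).2
    rw [integral_indicator hKm.compl] at h3
    simp only [integral_const, MeasurableSet.univ, measureReal_restrict_apply, Set.univ_inter,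
      smul_eq_mul, mul_one] at h3
    exact h3.trans hμ
  calc ∫ g in K, w g ∂(gm n) ≤ ∫ g, h (g - x) * w g ∂(gm n) := h1
    _ ≤ (∫ g, w g ∂(gm n)) * (2 * ∫ g, f g ∂(gm n)) := key
    _ ≤ (∫ g, w g ∂(gm n)) * (2 * (1/100)) := by
        refine mul_le_mul_of_nonneg_left ?_ hIpos.le
        linarith
    _ = _ := by ring

end Pool.Agent.TH985.TC
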