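import Pool.Agent.TH985.TC.Main

/-!
# Smooth cutoff functions with a third order Taylor bound
-/

set_option autoImplicit false

open MeasureTheory ProbabilityTheory
open scoped RealInnerProductSpace ENNReal Manifold ContDiff

namespace Pool.Agent.TH985.TC

open Pool.Agent.PZ871 (E gm)

variable {n : ℕ}

theorem seg_deriv (z ζ : E n) (s : ℝ) : HasDerivAt (fun s : ℝ => z + s • ζ) ζ s := by
  have := ((hasDerivAt_id s).smul_const ζ).const_add z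
  simpa using this

theorem lin_deriv (a s : ℝ) : HasDerivAt (fun s : ℝ => s * a) a s := by
  have := (hasDerivAt_id s).mul_const a
  simpa using this

/-- first order expansion of the derivative -/
theorem taylor_one (f1 : E n → E n →L[ℝ] ℝ) (f2 : E n → E n →L[ℝ] E n →L[ℝ] ℝ)
    (h12 : ∀ x, HasFDerivAt f1 (f2 x) x) (C : ℝ) (hC0 : 0 ≤ C)
    (hlip : ∀ x y, ‖f2 x - f2 y‖ ≤ C * ‖x - y‖) (z ζ : E n) (t : ℝ)
    (ht : t ∈ Set.Icc (0:ℝ) 1) :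
    ‖f1 (z + t • ζ) ζ - f1 z ζ - t * f2 z ζ ζ‖ ≤ C * ‖ζ‖ ^ 3 := by
  have hder : ∀ s ∈ Set.Icc (0:ℝ) 1, HasDerivWithinAt
      (fun s => f1 (z + s • ζ) ζ - s * f2 z ζ ζ)
      (f2 (z + s • ζ) ζ ζ - f2 z ζ ζ) (Set.Icc 0 1) s := by
    intro s _
    have h2 : HasDerivAt (fun s : ℝ => f1 (z + s • ζ)) (f2 (z + s • ζ) ζ) s :=
      (h12 (z + s • ζ)).comp_hasDerivAt s (seg_deriv z ζ s)
    have h3 : HasDerivAt (fun s : ℝ => f1 (z + s • ζ) ζ) (f2 (z + s • ζ) ζ ζ) s := by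
      have := h2.clm_apply (hasDerivAt_const s ζ)
      simpa using this
    exact (h3.sub (lin_deriv _ s)).hasDerivWithinAt
  have hb : ∀ s ∈ Set.Icc (0:ℝ) 1, ‖f2 (z + s • ζ) ζ ζ - f2 z ζ ζ‖ ≤ C * ‖ζ‖ ^ 3 := by
    intro s hs
    have h1 : ‖f2 (z + s • ζ) - f2 z‖ ≤ C * ‖ζ‖ := by
      refine (hlip _ _).trans ?_
      refine mul_le_mul_of_nonneg_left ?_ hC0
      rw [add_sub_cancel_left, norm_smul, Real.norm_of_nonneg hs.1]
      exact mul_le_of_le_one_left (norm_nonneg _) hs.2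
    have h2 : f2 (z + s • ζ) ζ ζ - f2 z ζ ζ = (f2 (z + s • ζ) - f2 z) ζ ζ := by
      simp
    rw [h2]
    calc ‖(f2 (z + s • ζ) - f2 z) ζ ζ‖ ≤ ‖(f2 (z + s • ζ) - f2 z) ζ‖ * ‖ζ‖ :=
          ContinuousLinearMap.le_opNorm _ _
      _ ≤ (‖f2 (z + s • ζ) - f2 z‖ * ‖ζ‖) * ‖ζ‖ :=
          mul_le_mul_of_nonneg_right (ContinuousLinearMap.le_opNorm _ _) (norm_nonneg _)
      _ ≤ ((C * ‖ζ‖) * ‖ζ‖) * ‖ζ‖ :=
          mul_le_mul_of_nonneg_right (mul_le_mul_of_nonneg_right h1 (norm_nonneg _))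
            (norm_nonneg _)
      _ = C * ‖ζ‖ ^ 3 := by ring
  have key := (convex_Icc (0:ℝ) 1).norm_image_sub_le_of_norm_hasDerivWithin_le hder hb
    (Set.left_mem_Icc.2 zero_le_one) ht
  simp only [zero_smul, add_zero, zero_mul, sub_zero] at key
  rw [Real.norm_of_nonneg ht.1] at key
  have e : f1 (z + t • ζ) ζ - f1 z ζ - t * f2 z ζ ζ =
      f1 (z + t • ζ) ζ - t * f2 z ζ ζ - f1 z ζ := by ring
  rw [e]
  refine key.trans ?_
  exact mul_le_of_le_one_right (by positivity) ht.2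

/-- second order expansion -/
theorem taylor_two (f : E n → ℝ) (f1 : E n → E n →L[ℝ] ℝ) (f2 : E n → E n →L[ℝ] E n →L[ℝ] ℝ)
    (h01 : ∀ x, HasFDerivAt f (f1 x) x)
    (h12 : ∀ x, HasFDerivAt f1 (f2 x) x) (C : ℝ) (hC0 : 0 ≤ C)
    (hlip : ∀ x y, ‖f2 x - f2 y‖ ≤ C * ‖x - y‖) (z ζ : E n) :
    |f (z + ζ) - f z - f1 z ζ - (1/2) * f2 z ζ ζ| ≤ C * ‖ζ‖ ^ 3 := by
  have hF1 := taylor_one f1 f2 h12 C hC0 hlip z ζ
  have hder : ∀ s ∈ Set.Icc (0:ℝ) 1, HasDerivWithinAt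
      (fun s => f (z + s • ζ) - s * f1 z ζ - (1/2) * s^2 * f2 z ζ ζ)
      (f1 (z + s • ζ) ζ - f1 z ζ - s * f2 z ζ ζ) (Set.Icc 0 1) s := by
    intro s _
    have h2 : HasDerivAt (fun s : ℝ => f (z + s • ζ)) (f1 (z + s • ζ) ζ) s :=
      (h01 (z + s • ζ)).comp_hasDerivAt s (seg_deriv z ζ s)
    have h4 : HasDerivAt (fun s : ℝ => (1/2) * s^2 * f2 z ζ ζ) (s * f2 z ζ ζ) s := by
      have := (((hasDerivAt_pow 2 s).const_mul (1/2:ℝ))).mul_const (f2 z ζ ζ)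
      refine this.congr_deriv ?_
      simp
    exact ((h2.sub (lin_deriv _ s)).sub h4).hasDerivWithinAt
  have key := (convex_Icc (0:ℝ) 1).norm_image_sub_le_of_norm_hasDerivWithin_le hder hF1
    (Set.left_mem_Icc.2 zero_le_one) (Set.right_mem_Icc.2 zero_le_one)
  simp only [zero_smul, add_zero, zero_mul, sub_zero, one_smul, one_mul, mul_zero] at key
  rw [← Real.norm_eq_abs]
  have e : f (z + ζ) - f z - f1 z ζ - (1/2) * f2 z ζ ζ =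
      f (z + ζ) - f1 z ζ - (1/2) * 1^2 * f2 z ζ ζ - (f z - (1/2) * 0^2 * f2 z ζ ζ) := by ring
  rw [e]
  refine key.trans (le_of_eq ?_)
  simp

theorem exists_smooth (K : Set (E n)) (hK : IsCompact K) {δ : ℝ} (hδ : 0 < δ) :
    ∃ f : E n → ℝ, ContDiff ℝ ∞ f ∧ (∀ x, 0 ≤ f x ∧ f x ≤ 1) ∧ (∀ x ∈ K, f x = 0) ∧
      (∀ x ∉ Metric.cthickening δ K, f x = 1) := by
  have hs : IsClosed K := hK.isClosed
  have ht : IsClosed (Metric.thickening δ K)ᶜ := Metric.isOpen_thickening.isClosed_compl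
  have hd : Disjoint K (Metric.thickening δ K)ᶜ :=
    Set.disjoint_compl_right_iff_subset.2 (Metric.self_subset_thickening hδ K)
  obtain ⟨F, hF0, hF1, hF⟩ := exists_contMDiffMap_zero_one_of_isClosed (n := (⊤ : ℕ∞))
    𝓘(ℝ, E n) hs ht hd
  refine ⟨fun x => F x, F.contMDiff.contDiff, fun x => ⟨(hF x).1, (hF x).2⟩,
    fun x hx => hF0 hx, fun x hx => hF1 fun h => hx (Metric.thickening_subset_cthickening δ K h)⟩

theorem fderiv_supp {F : Type*} [NormedAddCommGroup F] [NormedSpace ℝ F] (A : Set (E n))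
    (hA : IsClosed A) (f : E n → F) (c : F) (hf : ∀ x ∉ A, f x = c) :
    ∀ x ∉ A, fderiv ℝ f x = 0 := by
  intro x hx
  have h1 : f =ᶠ[nhds x] fun _ => c := by
    filter_upwards [hA.isOpen_compl.mem_nhds hx] with y hy
    exact hf y hy
  rw [h1.fderiv_eq, fderiv_const_apply]

theorem cd_fderiv (f : E n → ℝ) (hfs : ContDiff ℝ ∞ f) : ContDiff ℝ ∞ (fderiv ℝ f) :=
  hfs.fderiv_right (m := ∞) (by simp)

theorem cd_fderiv2 (f : E n → ℝ) (hf1s : ContDiff ℝ ∞ (fderiv ℝ f)) :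
    ContDiff ℝ ∞ (fderiv ℝ (fderiv ℝ f)) := hf1s.fderiv_right (m := ∞) (by simp)

theorem lip_cs (g : E n → E n →L[ℝ] E n →L[ℝ] ℝ) (hg : ContDiff ℝ ∞ g)
    (h : HasCompactSupport g) : ∃ C : NNReal, LipschitzWith C g := by
  exact ContDiff.lipschitzWith_of_hasCompactSupport h hg (by simp)

theorem lip_norm (g : E n → E n →L[ℝ] E n →L[ℝ] ℝ) (C : NNReal) (hC : LipschitzWith C g) :
    ∀ x y, ‖g x - g y‖ ≤ C * ‖x - y‖ := by
  intro x y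
  have := hC.dist_le_mul x y
  rwa [dist_eq_norm, dist_eq_norm] at this

theorem supp2 (A : Set (E n)) (hc : IsCompact A) (f : E n → ℝ) (hf1 : ∀ x ∉ A, f x = 1) :
    HasCompactSupport (fderiv ℝ (fderiv ℝ f)) :=
  HasCompactSupport.intro hc (fderiv_supp A hc.isClosed (fderiv ℝ f) 0
    (fderiv_supp A hc.isClosed f 1 hf1))

theorem exists_lip (A : Set (E n)) (hc : IsCompact A) (f : E n → ℝ)
    (hfs : ContDiff ℝ ∞ f) (hf1 : ∀ x ∉ A, f x = 1) :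
    ∃ C : ℝ, 0 ≤ C ∧ ∀ x y, ‖fderiv ℝ (fderiv ℝ f) x - fderiv ℝ (fderiv ℝ f) y‖ ≤ C * ‖x - y‖ := by
  obtain ⟨C, hC⟩ := lip_cs _ (cd_fderiv2 f (cd_fderiv f hfs)) (supp2 A hc f hf1)
  exact ⟨C, C.2, lip_norm _ C hC⟩

theorem exists_cutoff (K : Set (E n)) (hK : IsCompact K) {δ : ℝ} (hδ : 0 < δ) :
    ∃ (f : E n → ℝ) (L : E n → E n →L[ℝ] ℝ) (Q : E n → E n →L[ℝ] E n →L[ℝ] ℝ) (C : ℝ), 0 ≤ C ∧
      Tay n f L Q C ∧ (∀ x, 0 ≤ f x ∧ f x ≤ 1) ∧ (∀ x ∈ K, f x = 0) ∧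
      (∀ x ∉ Metric.cthickening δ K, f x = 1) := by
  obtain ⟨f, hfs, hf01, hf0, hf1⟩ := exists_smooth K hK hδ
  obtain ⟨C, hC0, hlip⟩ := exists_lip _ hK.cthickening f hfs hf1
  have hf1s : ContDiff ℝ ∞ (fderiv ℝ f) := cd_fderiv f hfs
  have h01 : ∀ x, HasFDerivAt f (fderiv ℝ f x) x := fun x =>
    ((hfs.differentiable (by simp)) x).hasFDerivAt
  have h12 : ∀ x, HasFDerivAt (fderiv ℝ f) (fderiv ℝ (fderiv ℝ f) x) x := fun x =>
    ((hf1s.differentiable (by simp)) x).hasFDerivAt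
  refine ⟨f, fderiv ℝ f, fderiv ℝ (fderiv ℝ f), C, hC0, ⟨hfs.continuous, fun x => ?_,
    fun z ζ => ?_⟩, hf01, hf0, hf1⟩
  · rw [abs_of_nonneg (hf01 x).1]
    exact (hf01 x).2
  · exact taylor_two f _ _ h01 h12 C hC0 hlip z ζ

end Pool.Agent.TH985.TC
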