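import Pool.Agent.TH985.TC.Soft

/-!
# The finite-dimensional, finite-index separation lemma
-/

set_option autoImplicit false

open MeasureTheory ProbabilityTheory
open scoped RealInnerProductSpace ENNReal

namespace Pool.Agent.TH985.TC

open Pool.Agent.PZ871 (E gm)

variable {n : ℕ}

theorem fin_sep {K : Set (E n)} (hK : IsCompact K) (hsym : ∀ x ∈ K, -x ∈ K)
    (hμ : (gm n).real Kᶜ ≤ 1/100) {ι : Type} [Fintype ι] [DecidableEq ι] (m : ι → ℕ)
    (J : ∀ i, E (m i) →L[ℝ] E n) (hJ : ∀ i a, J i a = 0 → a = 0) (p : ι → E n)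
    (hp : ∀ i, ∀ a ∈ K, ∀ b ∈ K, ∀ c ∈ K, ∃ v : E (m i), ⟪J i v, a + b + c - p i⟫ ≠ 0) :
    ∃ a : ∀ i, E (m i), (∀ i, a i ≠ 0) ∧
      9/10 ≤ (gm n).real {y | ∀ i, ⟪J i (a i), y - p i⟫ ≤ 0} := by
  classical
  obtain ⟨ℓ, hℓ⟩ : ∃ ℓ : ι → (∀ i, E (m i)) →L[ℝ] E n, ∀ i (b : ∀ i, E (m i)),
      ℓ i b = J i (b i) := ⟨fun i => (J i).comp (ContinuousLinearMap.proj i), fun _ _ => rfl⟩
  have hinj : ∀ a : (∀ i, E (m i)), (∀ i, ℓ i a = 0) → a = 0 := by
    intro a h
    funext i
    exact hJ i (a i) (by rw [← hℓ]; exact h i)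
  obtain ⟨a, ha⟩ := exists_min ℓ p hinj
  have hW := wt_Wt ℓ p a
  set w : ι → E n → ℝ := wt ℓ p a with hw
  set q : ι → ℝ := fun i => ∫ y, w i y ∂(gm n) with hq
  have hqpos : ∀ i, 0 < q i := fun i => (hW i).integral_pos
  have hwsm : ∀ i, Integrable (fun y : E n => w i y • y) (gm n) := by
    intro i
    refine (norm_int n).mono' ((hW i).cont.smul continuous_id).aestronglyMeasurable
      (Filter.Eventually.of_forall fun y => ?_)
    rw [norm_smul]
    exact mul_le_of_le_one_left (norm_nonneg _) ((hW i).norm_le y)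
  set x : ι → E n := fun i => (q i)⁻¹ • ∫ y, w i y • y ∂(gm n) with hx
  have hbar : ∀ i, q i • x i = ∫ y, w i y • y ∂(gm n) := by
    intro i
    rw [hx, smul_smul, mul_inv_cancel₀ (hqpos i).ne', one_smul]
  -- first order conditions
  have hfoc : ∀ i (v : E (m i)), ⟪J i v, x i - p i⟫ = 0 := by
    intro i v
    have h := foc ℓ p ha (Pi.single i v)
    have h1 : ∀ y, ∑ j, wt ℓ p a j y * ⟪ℓ j (Pi.single i v), y - p j⟫ =
        w i y * ⟪J i v, y - p i⟫ := by
      intro y
      rw [Finset.sum_eq_single i]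
      · rw [hℓ, Pi.single_eq_same]
      · intro j _ hji
        have : ℓ j (Pi.single i v) = 0 := by
          rw [hℓ, Pi.single_eq_of_ne hji, map_zero]
        rw [this, inner_zero_left, mul_zero]
      · intro hi
        exact absurd (Finset.mem_univ i) hi
    simp_rw [h1] at h
    have h2 : ∀ y, w i y * ⟪J i v, y - p i⟫ = ⟪J i v, w i y • y⟫ - w i y * ⟪J i v, p i⟫ := by
      intro y
      rw [inner_sub_right, real_inner_smul_right]
      ring
    simp_rw [h2] at h
    have hi1 : Integrable (fun y : E n => ⟪J i v, w i y • y⟫) (gm n) :=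
      (innerSL ℝ (J i v)).integrable_comp (hwsm i)
    rw [integral_sub hi1 ((hW i).integrable.mul_const _), integral_mul_const] at h
    have h3 : ∫ y, ⟪J i v, w i y • y⟫ ∂(gm n) = ⟪J i v, ∫ y, w i y • y ∂(gm n)⟫ :=
      integral_inner (hwsm i) (J i v)
    rw [h3, ← hbar i, real_inner_smul_right] at h
    have h4 : q i * ⟪J i v, x i - p i⟫ = 0 := by
      rw [inner_sub_right, mul_sub]
      exact h
    exact (mul_eq_zero.1 h4).resolve_left (hqpos i).ne'
  have hnot : ∀ i, ∀ a ∈ K, ∀ b ∈ K, ∀ c ∈ K, a + b + c ≠ x i := by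
    intro i a ha b hb c hc h
    obtain ⟨v, hv⟩ := hp i a ha b hb c hc
    exact hv (by rw [h]; exact hfoc i v)
  have hcore : ∀ i, ∫ g in K, w i g ∂(gm n) ≤ (1/50) * q i := fun i =>
    core hK hsym hμ (hW i) (hbar i) (hnot i)
  have hKm : MeasurableSet K := hK.isClosed.measurableSet
  have hout : ∀ i, (49/50) * q i ≤ ∫ g in Kᶜ, w i g ∂(gm n) := by
    intro i
    have := integral_add_compl hKm (hW i).integrable
    have h2 := hcore i
    have h3 : q i = ∫ g, w i g ∂(gm n) := rfl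
    linarith
  have hsum_le : ∀ y, ∑ i, w i y ≤ 1 := by
    intro y
    simp only [hw, wt]
    rw [← Finset.sum_div, div_le_one (sm_pos _)]
    linarith
  have hsint : Integrable (fun y => ∑ i, w i y) (gm n) :=
    integrable_finsetSum _ fun i _ => (hW i).integrable
  have hS : ∑ i, q i ≤ 1/98 := by
    have h1 : (49/50) * ∑ i, q i ≤ ∫ g in Kᶜ, ∑ i, w i g ∂(gm n) := by
      rw [integral_finsetSum _ fun i _ => (hW i).integrable.integrableOn, Finset.mul_sum]
      exact Finset.sum_le_sum fun i _ => hout i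
    have h2 : ∫ g in Kᶜ, ∑ i, w i g ∂(gm n) ≤ ∫ g in Kᶜ, (1:ℝ) ∂(gm n) :=
      setIntegral_mono hsint.integrableOn (integrable_const _).integrableOn hsum_le
    have h3 : ∫ g in Kᶜ, (1:ℝ) ∂(gm n) = (gm n).real Kᶜ := by
      simp
    rw [h3] at h2
    linarith
  -- Markov
  have hmk : (1/2) * (gm n).real {y | 1/2 ≤ ∑ i, w i y} ≤ ∑ i, q i := by
    have := mul_meas_ge_le_integral_of_nonneg (μ := gm n) (f := fun y => ∑ i, w i y)
      (Filter.Eventually.of_forall fun y => Finset.sum_nonneg fun i _ => ((hW i).pos y).le)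
      hsint (1/2)
    rwa [integral_finsetSum _ fun i _ => (hW i).integrable] at this
  have hbad : (gm n).real {y | 1/2 ≤ ∑ i, w i y} ≤ 1/49 := by linarith
  have hneg : ∀ y, ¬ (1/2 ≤ ∑ i, w i y) → ∀ i, uf ℓ p a y i < 0 := by
    intro y hy i
    push Not at hy
    have h1 : ∑ i, w i y = (∑ i, Real.exp (uf ℓ p a y i)) / (1 + ∑ l, Real.exp (uf ℓ p a y l)) := by
      simp only [hw, wt]
      rw [← Finset.sum_div]
    rw [h1, div_lt_iff₀ (sm_pos _)] at hy
    have h2 : ∑ i, Real.exp (uf ℓ p a y i) < 1 := by linarith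
    have h3 : Real.exp (uf ℓ p a y i) ≤ ∑ l, Real.exp (uf ℓ p a y l) :=
      Finset.single_le_sum (f := fun l => Real.exp (uf ℓ p a y l))
        (fun l _ => (Real.exp_pos _).le) (Finset.mem_univ i)
    have h4 : Real.exp (uf ℓ p a y i) < Real.exp 0 := by
      rw [Real.exp_zero]
      linarith
    exact Real.exp_lt_exp.1 h4
  have hmeas : MeasurableSet {y : E n | 1/2 ≤ ∑ i, w i y} := by
    refine measurableSet_le measurable_const ?_
    exact Finset.measurable_sum _ fun i _ => (hW i).cont.measurable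
  have hcompl : (gm n).real {y : E n | 1/2 ≤ ∑ i, w i y}ᶜ =
      1 - (gm n).real {y : E n | 1/2 ≤ ∑ i, w i y} := probReal_compl_eq_one_sub hmeas
  have hge : 9/10 ≤ (gm n).real {y : E n | 1/2 ≤ ∑ i, w i y}ᶜ := by
    rw [hcompl]
    linarith
  refine ⟨a, fun i hi => ?_, hge.trans (measureReal_mono ?_)⟩
  · have hne : ({y : E n | 1/2 ≤ ∑ i, w i y}ᶜ).Nonempty := by
      by_contra hcon
      rw [Set.not_nonempty_iff_eq_empty] at hcon
      rw [hcon] at hge
      simp at hge
      norm_num at hge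
    obtain ⟨y, hy⟩ := hne
    have := hneg y hy i
    rw [uf, hℓ, hi, map_zero, inner_zero_left] at this
    exact lt_irrefl _ this
  · intro y hy i
    have := (hneg y hy i).le
    rwa [uf, hℓ] at this

end Pool.Agent.TH985.TC
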