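import Pool.Agent.TH985.TC.Mean

/-!
# Comparison of two random vectors with the same covariance
-/

set_option autoImplicit false

open MeasureTheory ProbabilityTheory
open scoped RealInnerProductSpace ENNReal

namespace Pool.Agent.TH985.TC

open Pool.Agent.PZ871 (E gm)

variable {n : ℕ}

/-- third order Taylor bound -/
structure Tay (n : ℕ) (f : E n → ℝ) (L : E n → E n →L[ℝ] ℝ) (Q : E n → E n →L[ℝ] E n →L[ℝ] ℝ)
    (C : ℝ) : Prop where
  cont : Continuous f
  bd : ∀ x, |f x| ≤ 1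
  tay : ∀ z ζ, |f (z + ζ) - f z - L z ζ - (1/2) * Q z ζ ζ| ≤ C * ‖ζ‖^3

/-- centred random vector with covariance `τ I` and third moment at most `c` -/
structure Gd {Ω : Type*} [MeasurableSpace Ω] (P : Measure Ω) (ζ : Ω → E n) (τ c : ℝ) : Prop where
  prob : IsProbabilityMeasure P
  mem : MemLp ζ 3 P
  mean : ∫ ω, ζ ω ∂P = 0
  cov : ∀ i j, ∫ ω, ζ ω i * ζ ω j ∂P = if i = j then τ else 0
  le3 : ∫ ω, ‖ζ ω‖^3 ∂P ≤ c

theorem Gd.cube {Ω : Type*} [MeasurableSpace Ω] {P : Measure Ω} {ζ : Ω → E n} {τ c : ℝ}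
    (h : Gd P ζ τ c) : Integrable (fun ω => ‖ζ ω‖^3) P := by
  have := h.mem.integrable_norm_pow (by norm_num)
  exact_mod_cast this

theorem quad_expand (B : E n →L[ℝ] E n →L[ℝ] ℝ) (x : E n) :
    B x x = ∑ i, ∑ j, (x i * x j) * B (EuclideanSpace.single i 1) (EuclideanSpace.single j 1) := by
  have hx : x = ∑ i, x i • (EuclideanSpace.single i (1:ℝ) : E n) := by
    ext k
    simp [Finset.sum_apply, Pi.single_apply]
  conv_lhs => rw [hx]
  simp only [map_sum, map_smul, ContinuousLinearMap.sum_apply, ContinuousLinearMap.smul_apply,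
    smul_eq_mul, Finset.mul_sum]
  rw [Finset.sum_comm]
  refine Finset.sum_congr rfl fun i _ => Finset.sum_congr rfl fun j _ => ?_
  ring

theorem Gd.int_coord {Ω : Type*} [MeasurableSpace Ω] {P : Measure Ω} {ζ : Ω → E n} {τ c : ℝ}
    (h : Gd P ζ τ c) (i j : Fin n) : Integrable (fun ω => ζ ω i * ζ ω j) P := by
  haveI := h.prob
  have h2 : MemLp ζ 2 P := h.mem.mono_exponent (by norm_num)
  have hi : ∀ k : Fin n, MemLp (fun ω => ζ ω k) 2 P := fun k => by
    have := (EuclideanSpace.proj k : E n →L[ℝ] ℝ).comp_memLp' h2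
    exact this
  exact (hi i).integrable_mul (hi j)

/-- one step Taylor expansion in expectation -/
theorem lind {Ω : Type*} [MeasurableSpace Ω] {P : Measure Ω} {ζ : Ω → E n} {τ c C : ℝ}
    (h : Gd P ζ τ c) {f : E n → ℝ} {L : E n → E n →L[ℝ] ℝ} {Q : E n → E n →L[ℝ] E n →L[ℝ] ℝ}
    (hf : Tay n f L Q C) (hC : 0 ≤ C) (z : E n) :
    |∫ ω, f (z + ζ ω) ∂P - (f z + (τ/2) *
      ∑ i, Q z (EuclideanSpace.single i 1) (EuclideanSpace.single i 1))| ≤ C * c := by
  haveI := h.prob
  have hζ1 : Integrable ζ P := h.mem.integrable (by norm_num)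
  have i1 : Integrable (fun ω => f (z + ζ ω)) P := by
    refine (integrable_const (1:ℝ)).mono'
      ((hf.cont.comp (continuous_const_add z)).comp_aestronglyMeasurable
        h.mem.aestronglyMeasurable) (Filter.Eventually.of_forall fun ω => ?_)
    exact hf.bd _
  have i2 : Integrable (fun ω => L z (ζ ω)) P := (L z).integrable_comp hζ1
  have e2 : ∫ ω, L z (ζ ω) ∂P = 0 := by
    rw [(L z).integral_comp_comm hζ1, h.mean, map_zero]
  have hq : ∀ ω, Q z (ζ ω) (ζ ω) = ∑ i, ∑ j, (ζ ω i * ζ ω j) *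
      Q z (EuclideanSpace.single i 1) (EuclideanSpace.single j 1) := fun ω => quad_expand _ _
  have i3 : Integrable (fun ω => Q z (ζ ω) (ζ ω)) P := by
    simp_rw [hq]
    exact integrable_finsetSum _ fun i _ => integrable_finsetSum _ fun j _ =>
      (h.int_coord i j).mul_const _
  have e3 : ∫ ω, Q z (ζ ω) (ζ ω) ∂P =
      τ * ∑ i, Q z (EuclideanSpace.single i 1) (EuclideanSpace.single i 1) := by
    simp_rw [hq]
    rw [integral_finsetSum _ fun i _ => integrable_finsetSum _ fun j _ =>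
      (h.int_coord i j).mul_const _, Finset.mul_sum]
    refine Finset.sum_congr rfl fun i _ => ?_
    rw [integral_finsetSum _ fun j _ => (h.int_coord i j).mul_const _]
    simp_rw [integral_mul_const, h.cov]
    simp
  have i12 : Integrable (fun ω => f (z + ζ ω) - f z) P := i1.sub (integrable_const _)
  have i123 : Integrable (fun ω => f (z + ζ ω) - f z - L z (ζ ω)) P := i12.sub i2
  have eR : ∫ ω, (f (z + ζ ω) - f z - L z (ζ ω) - (1/2) * Q z (ζ ω) (ζ ω)) ∂P =
      ∫ ω, f (z + ζ ω) ∂P - (f z + (τ/2) *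
      ∑ i, Q z (EuclideanSpace.single i 1) (EuclideanSpace.single i 1)) := by
    rw [integral_sub i123 (i3.const_mul _), integral_sub i12 i2,
      integral_sub i1 (integrable_const _), integral_const_mul, e2, e3]
    simp
    ring
  rw [← eR, ← Real.norm_eq_abs]
  refine (norm_integral_le_of_norm_le (h.cube.const_mul C)
    (Filter.Eventually.of_forall fun ω => ?_)).trans ?_
  · rw [Real.norm_eq_abs]
    exact hf.tay z (ζ ω)
  · rw [integral_const_mul]
    exact mul_le_mul_of_nonneg_left h.le3 hC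

theorem lind_aux {Ω : Type*} [MeasurableSpace Ω] {P : Measure Ω} {ζ : Ω → E n} {τ c C : ℝ}
    (h : Gd P ζ τ c) {f : E n → ℝ} {L : E n → E n →L[ℝ] ℝ}
    {Q : E n → E n →L[ℝ] E n →L[ℝ] ℝ} (hf : Tay n f L Q C) (s : ℝ) (z : E n) :
    Integrable (fun g => ∫ ω, f (z + Real.sqrt s • g + ζ ω) ∂P) (gm n) ∧
      ∫ ω, T n s f (z + ζ ω) ∂P = ∫ g, ∫ ω, f (z + Real.sqrt s • g + ζ ω) ∂P ∂(gm n) := by
  have := h.prob
  have hi : Integrable (Function.uncurry fun (ω : Ω) (g : E n) =>
      f (z + ζ ω + Real.sqrt s • g)) (P.prod (gm n)) := by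
    have hm : AEStronglyMeasurable (fun p : Ω × E n => z + ζ p.1 + Real.sqrt s • p.2)
        (P.prod (gm n)) :=
      ((h.mem.aestronglyMeasurable.comp_fst).const_add z).add
        ((continuous_const_smul (Real.sqrt s)).comp_aestronglyMeasurable
          aestronglyMeasurable_id.comp_snd)
    exact (integrable_const (1:ℝ)).mono' (hf.cont.comp_aestronglyMeasurable hm)
      (Filter.Eventually.of_forall fun p => hf.bd _)
  have hsw := integral_integral_swap hi
  have e : ∀ g : E n, ∀ ω, f (z + ζ ω + Real.sqrt s • g) = f (z + Real.sqrt s • g + ζ ω) := by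
    intro g ω
    congr 1
    abel
  refine ⟨?_, ?_⟩
  · have := hi.swap.integral_prod_left
    simp only [Function.comp_def, Prod.swap, Function.uncurry] at this
    simp_rw [e] at this
    exact this
  · unfold T
    rw [hsw]
    simp_rw [e]

/-- comparison of two random vectors -/
theorem lind2 {Ω Ω' : Type*} [MeasurableSpace Ω] [MeasurableSpace Ω'] {P : Measure Ω}
    {P' : Measure Ω'} {ζ : Ω → E n} {ζ' : Ω' → E n} {τ c C : ℝ}
    (h : Gd P ζ τ c) (h' : Gd P' ζ' τ c) {f : E n → ℝ} {L : E n → E n →L[ℝ] ℝ}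
    {Q : E n → E n →L[ℝ] E n →L[ℝ] ℝ} (hf : Tay n f L Q C) (hC : 0 ≤ C) (s : ℝ) (z : E n) :
    ∫ ω, T n s f (z + ζ ω) ∂P ≤ ∫ ω, T n s f (z + ζ' ω) ∂P' + 2 * (C * c) := by
  obtain ⟨a1, a2⟩ := lind_aux h hf s z
  obtain ⟨b1, b2⟩ := lind_aux h' hf s z
  rw [a2, b2]
  have e : ∫ g, ((∫ ω, f (z + Real.sqrt s • g + ζ' ω) ∂P') + 2 * (C * c)) ∂(gm n) =
      ∫ g, ∫ ω, f (z + Real.sqrt s • g + ζ' ω) ∂P' ∂(gm n) + 2 * (C * c) := by
    rw [integral_add b1 (integrable_const _)]
    simp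
  rw [← e]
  refine integral_mono a1 (b1.add (integrable_const _)) fun g => ?_
  simp only
  have k1 := abs_le.1 (lind h hf hC (z + Real.sqrt s • g))
  have k2 := abs_le.1 (lind h' hf hC (z + Real.sqrt s • g))
  linarith [k1.1, k1.2, k2.1, k2.2]

end Pool.Agent.TH985.TC
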