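import Pool.Agent.TH985.TC.StepGd

/-!
# The main inequality
-/

set_option autoImplicit false

open MeasureTheory ProbabilityTheory
open scoped RealInnerProductSpace ENNReal

namespace Pool.Agent.TH985.TC

open Pool.Agent.PZ871 (E gm)

variable {n : ℕ}

theorem gauss_gd (n : ℕ) {τ : ℝ} (hτ : 0 < τ) :
    Gd (gm n) (fun g : E n => Real.sqrt τ • g) τ (C3 n * Real.sqrt τ ^ 3) where
  prob := inferInstance
  mem := by
    have : IsGaussian (gm n) := by unfold gm; infer_instance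
    exact (IsGaussian.memLp_id (gm n) 3 (by norm_num)).const_smul (Real.sqrt τ)
  mean := by rw [integral_smul, gauss_mean, smul_zero]
  cov := fun i j => by
    have e : ∀ g : E n, (Real.sqrt τ • g) i * (Real.sqrt τ • g) j = τ * (g i * g j) := by
      intro g
      simp only [PiLp.smul_apply, smul_eq_mul]
      calc Real.sqrt τ * g i * (Real.sqrt τ * g j) = (Real.sqrt τ * Real.sqrt τ) * (g i * g j) := by
            ring
        _ = _ := by rw [Real.mul_self_sqrt hτ.le]
    simp_rw [e]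
    rw [integral_const_mul, gauss_cov]
    split_ifs <;> simp
  le3 := by
    have e : ∀ g : E n, ‖Real.sqrt τ • g‖ ^ 3 = Real.sqrt τ ^ 3 * ‖g‖ ^ 3 := by
      intro g
      rw [norm_smul, Real.norm_of_nonneg (Real.sqrt_nonneg _), mul_pow]
    simp_rw [e]
    rw [integral_const_mul]
    unfold C3
    have h : 0 ≤ ∫ g : E n, ‖g‖^3 ∂(gm n) := integral_nonneg fun g => by positivity
    have h2 : 0 ≤ 4 * (36 * (n:ℝ)^3 + Real.sqrt n ^ 3 * ∫ g : E n, ‖g‖^3 ∂(gm n)) := by
      positivity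
    have h3 : 0 ≤ Real.sqrt τ ^ 3 := by positivity
    nlinarith [mul_nonneg h2 h3]

theorem T_meas (s : ℝ) (φ : E n → ℝ) (hφ : StronglyMeasurable φ) :
    StronglyMeasurable (T n s φ) := by
  unfold T
  have : StronglyMeasurable (fun p : E n × E n => φ (p.1 + Real.sqrt s • p.2)) :=
    hφ.comp_measurable (by fun_prop)
  exact this.integral_prod_right

theorem T_add {F : Type*} [NormedAddCommGroup F] [NormedSpace ℝ F]
    {s t : ℝ} (hs : 0 ≤ s) (ht : 0 ≤ t) (φ : E n → F) (hφ : StronglyMeasurable φ) (A B : ℝ)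
    (hb : ∀ z, ‖φ z‖ ≤ A + B * ‖z‖) (y : E n) :
    ∫ g, T n s φ (y + Real.sqrt t • g) ∂(gm n) = T n (s + t) φ y := by
  unfold T
  exact (semigroup n s t hs ht φ hφ A B hb y).2

/-- the induction claim -/
def Claim (n : ℕ) (w f h : E n → ℝ) (x : E n) (s ε : ℝ) : Prop :=
  ∀ y v : E n, T n s (fun z => h (z - x) * w z) y ≤ T n s w y *
    (T n s f ((1/2:ℝ) • (Mn n w s y - x) + v) + T n s f ((1/2:ℝ) • (Mn n w s y - x) - v) + ε)

theorem claim_zero {w f h : E n → ℝ} (hw : Wt n w) (hh : ∀ a b, h (a + b) ≤ f a + f b) (x : E n) :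
    Claim n w f h x 0 0 := by
  intro y v
  simp only [T_zero, Mn_zero hw, add_zero]
  have h1 := hh ((1/2:ℝ) • (y - x) + v) ((1/2:ℝ) • (y - x) - v)
  have e : (1/2:ℝ) • (y - x) + v + ((1/2:ℝ) • (y - x) - v) = y - x := by module
  rw [e] at h1
  rw [mul_comm]
  exact mul_le_mul_of_nonneg_left h1 (hw.pos y).le

theorem claim_step {w f h : E n → ℝ} (hw : Wt n w) {L : E n → E n →L[ℝ] ℝ}
    {Q : E n → E n →L[ℝ] E n →L[ℝ] ℝ} {C : ℝ} (hf : Tay n f L Q C) (hC : 0 ≤ C)
    (hhm : Measurable h) (hhb : ∀ z, |h z| ≤ 1) (x : E n) {s ε : ℝ} (hs : 0 ≤ s)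
    {τ : ℝ} (hτ : 0 < τ) (hcl : Claim n w f h x s ε) :
    Claim n w f h x (s + τ) (ε + 4 * (C * (C3 n * Real.sqrt τ ^ 3))) := by
  intro y v
  set r := Real.sqrt τ with hr
  have hr0 : 0 < r := Real.sqrt_pos.2 hτ
  set u : E n → ℝ := fun g => T n s w (y + r • g) with hudef
  have hu : Wt n u := (hw.heat s).affine y r
  have hIu : ∫ g, u g ∂(gm n) = T n (s + τ) w y :=
    T_add hs hτ.le w hw.cont.stronglyMeasurable 1 0 (fun z => by
      rw [zero_mul, add_zero]; exact hw.norm_le z) y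
  set Z := T n (s + τ) w y with hZ
  have hZpos : 0 < Z := T_pos hw _ y
  set m := Mn n w (s + τ) y with hm
  set D : E n → E n := fun g => Mn n w s (y + r • g) - m with hDdef
  have hD : ∀ g g', ‖D g - D g'‖ ≤ Real.sqrt τ * ‖g - g'‖ := by
    intro g g'
    have h1 := Mn_lip hw hs (y + r • g) (y + r • g')
    have e1 : D g - D g' = Mn n w s (y + r • g) - Mn n w s (y + r • g') := by
      simp only [hDdef]; abel
    have e2 : y + r • g - (y + r • g') = r • (g - g') := by module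
    rw [e1]
    refine h1.trans ?_
    rw [e2, norm_smul, Real.norm_of_nonneg hr0.le]
  have hwid : StronglyMeasurable (fun z : E n => w z • z) :=
    (hw.cont.smul continuous_id).stronglyMeasurable
  have hwidb : ∀ z : E n, ‖w z • z‖ ≤ 0 + 1 * ‖z‖ := by
    intro z
    rw [norm_smul, zero_add, one_mul]
    exact mul_le_of_le_one_left (norm_nonneg _) (hw.norm_le z)
  have hint : Integrable (fun g => T n s (fun z => w z • z) (y + r • g)) (gm n) := by
    have := (semigroup n s τ hs hτ.le _ hwid 0 1 hwidb y).1.integral_prod_left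
    exact this
  have h0 : ∫ g, u g • D g ∂(gm n) = 0 := by
    have e1 : ∀ g, u g • D g = T n s (fun z => w z • z) (y + r • g) - u g • m := by
      intro g
      simp only [hDdef, hudef]
      rw [smul_sub, Mn_spec hw]
    simp_rw [e1]
    rw [integral_sub hint (hu.integrable.smul_const m), integral_smul_const, hIu,
      T_add hs hτ.le _ hwid 0 1 hwidb y, hm, hZ, Mn_spec hw, sub_self]
  obtain ⟨η, hηc, hη⟩ := step_gd hu hτ hD h0
  have hgd1 := hη 1 (Or.inl rfl)
  have hgd2 := hη (-1) (Or.inr rfl)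
  haveI := tilt_prob hu
  set H : E n → ℝ := fun z => h (z - x) * w z with hH
  have hHm : StronglyMeasurable H := by
    have h1 : Measurable H := (hhm.comp (measurable_sub_const x)).mul hw.cont.measurable
    exact h1.stronglyMeasurable
  have hHb : ∀ z, ‖H z‖ ≤ 1 + 0 * ‖z‖ := by
    intro z
    rw [zero_mul, add_zero, hH, norm_mul, Real.norm_eq_abs]
    exact mul_le_one₀ (hhb _) (norm_nonneg _) (hw.norm_le z)
  set zp : E n := (1/2:ℝ) • (m - x) + v with hzp
  set zm : E n := (1/2:ℝ) • (m - x) - v with hzm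
  -- the pointwise inequality
  have hpt : ∀ p : E n × E n, T n s H (y + r • p.1) / u p.1 ≤
      T n s f (zp + ((1/2:ℝ) • D p.1 + (1:ℝ) • η p.2)) +
      T n s f (zm + ((1/2:ℝ) • D p.1 + (-1:ℝ) • η p.2)) + ε := by
    intro p
    rw [div_le_iff₀ (hu.pos _), mul_comm]
    have h1 := hcl (y + r • p.1) (v + η p.2)
    have e1 : (1/2:ℝ) • (Mn n w s (y + r • p.1) - x) + (v + η p.2) =
        zp + ((1/2:ℝ) • D p.1 + (1:ℝ) • η p.2) := by
      simp only [hzp, hDdef]
      module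
    have e2 : (1/2:ℝ) • (Mn n w s (y + r • p.1) - x) - (v + η p.2) =
        zm + ((1/2:ℝ) • D p.1 + (-1:ℝ) • η p.2) := by
      simp only [hzm, hDdef]
      module
    rw [e1, e2] at h1
    exact h1
  have hTf : Continuous (T n s f) := by
    unfold T
    refine continuous_of_dominated (bound := fun _ => (1:ℝ)) (fun y => ?_) (fun y => ?_)
      (integrable_const _) ?_
    · exact (hf.cont.comp (by fun_prop)).aestronglyMeasurable
    · exact Filter.Eventually.of_forall fun g => hf.bd _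
    · exact Filter.Eventually.of_forall fun g => hf.cont.comp (by fun_prop)
  have hTfb : ∀ z, ‖T n s f z‖ ≤ 1 := by
    intro z
    unfold T
    have := norm_integral_le_of_norm_le_const (μ := gm n) (C := 1)
      (f := fun g => f (z + Real.sqrt s • g)) (Filter.Eventually.of_forall fun g => hf.bd _)
    simpa using this
  have hi1 : ∀ (z : E n) (σ : ℝ) (hg : Gd ((tilt n u).prod (gm n))
      (fun p : E n × E n => (1/2:ℝ) • D p.1 + σ • η p.2) τ (C3 n * Real.sqrt τ ^ 3)),
      Integrable (fun p : E n × E n => T n s f (z + ((1/2:ℝ) • D p.1 + σ • η p.2)))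
        ((tilt n u).prod (gm n)) := by
    intro z σ hg
    refine (integrable_const (1:ℝ)).mono' ((hTf.comp (continuous_const_add z)).comp_aestronglyMeasurable
        hg.mem.aestronglyMeasurable) (Filter.Eventually.of_forall fun ω => ?_)
    exact hTfb _
  have ia := hi1 zp 1 hgd1
  have ib := hi1 zm (-1) hgd2
  -- left side
  have hGm : StronglyMeasurable (fun g => T n s H (y + r • g) / u g) := by
    have h1 : StronglyMeasurable (fun g => T n s H (y + r • g)) :=
      (T_meas s H hHm).comp_measurable (by fun_prop)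
    exact h1.div hu.cont.stronglyMeasurable
  have hGb : ∀ g, ‖T n s H (y + r • g) / u g‖ ≤ 1 := by
    intro g
    rw [norm_div, Real.norm_of_nonneg (hu.pos g).le, div_le_one (hu.pos g)]
    simp only [hudef]
    unfold T
    refine norm_integral_le_of_norm_le ((hw.affine (y + r • g) (Real.sqrt s)).integrable)
      (Filter.Eventually.of_forall fun g' => ?_)
    simp only [hH]
    rw [norm_mul, Real.norm_eq_abs, Real.norm_of_nonneg (hw.pos _).le]
    exact mul_le_of_le_one_left (hw.pos _).le (hhb _)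
  have hGi : Integrable (fun g => T n s H (y + r • g) / u g) (tilt n u) :=
    (integrable_const (1:ℝ)).mono' hGm.aestronglyMeasurable
      (Filter.Eventually.of_forall hGb)
  have hGint : ∫ g, T n s H (y + r • g) / u g ∂(tilt n u) = Z⁻¹ * T n (s + τ) H y := by
    rw [tilt_integral hu, hIu, smul_eq_mul, ← T_add hs hτ.le H hHm 1 0 hHb y]
    congr 1
    refine integral_congr_ae (Filter.Eventually.of_forall fun g => ?_)
    simp only [smul_eq_mul]
    rw [mul_div_cancel₀]
    exact (hu.pos g).ne'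
  have hmain := integral_mono (hGi.comp_fst (gm n)) ((ia.add ib).add (integrable_const ε)) hpt
  have hL : ∫ p : E n × E n, T n s H (y + r • p.1) / u p.1 ∂((tilt n u).prod (gm n)) =
      Z⁻¹ * T n (s + τ) H y := by
    rw [integral_fun_fst (fun g => T n s H (y + r • g) / u g), hGint]
    simp
  have hR : ∫ p : E n × E n, (T n s f (zp + ((1/2:ℝ) • D p.1 + (1:ℝ) • η p.2)) +
      T n s f (zm + ((1/2:ℝ) • D p.1 + (-1:ℝ) • η p.2)) + ε) ∂((tilt n u).prod (gm n)) =
      ∫ p : E n × E n, T n s f (zp + ((1/2:ℝ) • D p.1 + (1:ℝ) • η p.2)) ∂((tilt n u).prod (gm n)) +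
      ∫ p : E n × E n, T n s f (zm + ((1/2:ℝ) • D p.1 + (-1:ℝ) • η p.2)) ∂((tilt n u).prod (gm n)) +
      ε := by
    have iab : Integrable (fun p : E n × E n => T n s f (zp + ((1/2:ℝ) • D p.1 + (1:ℝ) • η p.2)) +
      T n s f (zm + ((1/2:ℝ) • D p.1 + (-1:ℝ) • η p.2))) ((tilt n u).prod (gm n)) := ia.add ib
    rw [integral_add iab (integrable_const ε), integral_add ia ib]
    simp
  have hgg := gauss_gd n hτ
  have k1 := lind2 hgd1 hgg hf hC s zp
  have k2 := lind2 hgd2 hgg hf hC s zm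
  have hfb : ∀ z, ‖f z‖ ≤ 1 + 0 * ‖z‖ := by
    intro z
    rw [zero_mul, add_zero]
    exact hf.bd z
  rw [T_add hs hτ.le f hf.cont.stronglyMeasurable 1 0 hfb] at k1 k2
  have hfin : Z⁻¹ * T n (s + τ) H y ≤ T n (s + τ) f zp + T n (s + τ) f zm +
      (ε + 4 * (C * (C3 n * Real.sqrt τ ^ 3))) := by
    have h1 : Z⁻¹ * T n (s + τ) H y ≤
        ∫ p : E n × E n, T n s f (zp + ((1/2:ℝ) • D p.1 + (1:ℝ) • η p.2)) ∂((tilt n u).prod (gm n)) +
      ∫ p : E n × E n, T n s f (zm + ((1/2:ℝ) • D p.1 + (-1:ℝ) • η p.2)) ∂((tilt n u).prod (gm n)) +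
      ε := by
      rw [← hL, ← hR]
      exact hmain
    linarith
  rw [inv_mul_le_iff₀ hZpos] at hfin
  exact hfin

theorem claim_iter {w f h : E n → ℝ} (hw : Wt n w) {L : E n → E n →L[ℝ] ℝ}
    {Q : E n → E n →L[ℝ] E n →L[ℝ] ℝ} {C : ℝ} (hf : Tay n f L Q C) (hC : 0 ≤ C)
    (hhm : Measurable h) (hhb : ∀ z, |h z| ≤ 1) (hh : ∀ a b, h (a + b) ≤ f a + f b) (x : E n)
    {τ : ℝ} (hτ : 0 < τ) (k : ℕ) :
    Claim n w f h x (k * τ) (k * (4 * (C * (C3 n * Real.sqrt τ ^ 3)))) := by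
  induction k with
  | zero => simpa using claim_zero hw hh x
  | succ k ih =>
    have h1 := claim_step hw hf hC hhm hhb x (by positivity) hτ ih
    have e1 : ((k + 1 : ℕ) : ℝ) * τ = k * τ + τ := by push_cast; ring
    have e2 : ((k + 1 : ℕ) : ℝ) * (4 * (C * (C3 n * Real.sqrt τ ^ 3))) =
      k * (4 * (C * (C3 n * Real.sqrt τ ^ 3))) + 4 * (C * (C3 n * Real.sqrt τ ^ 3)) := by
      push_cast; ring
    rw [e1, e2]
    exact h1

theorem T_one {F : Type*} [NormedAddCommGroup F] [NormedSpace ℝ F] (φ : E n → F) :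
    T n 1 φ 0 = ∫ g, φ g ∂(gm n) := by
  unfold T
  simp

/-- the main inequality -/
theorem main_ineq {w f h : E n → ℝ} (hw : Wt n w) {L : E n → E n →L[ℝ] ℝ}
    {Q : E n → E n →L[ℝ] E n →L[ℝ] ℝ} {C : ℝ} (hf : Tay n f L Q C) (hC : 0 ≤ C)
    (hhm : Measurable h) (hhb : ∀ z, |h z| ≤ 1) (hh : ∀ a b, h (a + b) ≤ f a + f b) (x : E n)
    (hx : x = (∫ g, w g ∂(gm n))⁻¹ • ∫ g, w g • g ∂(gm n)) :
    ∫ g, h (g - x) * w g ∂(gm n) ≤ (∫ g, w g ∂(gm n)) * (2 * ∫ g, f g ∂(gm n)) := by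
  set K : ℝ := 4 * (C * C3 n) with hK
  have hN : ∀ N : ℕ, 1 ≤ N → ∫ g, h (g - x) * w g ∂(gm n) ≤ (∫ g, w g ∂(gm n)) *
      (2 * ∫ g, f g ∂(gm n) + K * Real.sqrt (1 / (N:ℝ))) := by
    intro N hN
    have hNpos : (0:ℝ) < N := by exact_mod_cast hN
    have hτ : (0:ℝ) < 1 / N := by positivity
    have h1 := claim_iter hw hf hC hhm hhb hh x hτ N 0 0
    have e1 : (N:ℝ) * (1 / N) = 1 := by field_simp
    rw [e1, T_one, T_one] at h1
    have e2 : Mn n w 1 0 = x := by
      unfold Mn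
      rw [T_one, T_one, hx]
    rw [e2, sub_self, smul_zero, add_zero, sub_zero, T_one] at h1
    have e3 : (N:ℝ) * (4 * (C * (C3 n * Real.sqrt (1 / (N:ℝ)) ^ 3))) = K * Real.sqrt (1 / (N:ℝ)) := by
      have e4 : Real.sqrt (1 / (N:ℝ)) ^ 3 = (1 / N) * Real.sqrt (1 / (N:ℝ)) := by
        rw [pow_succ, Real.sq_sqrt hτ.le]
      rw [e4, hK]
      field_simp
    rw [e3] at h1
    refine h1.trans (le_of_eq ?_)
    ring
  have hlim : Filter.Tendsto (fun N : ℕ => (∫ g, w g ∂(gm n)) *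
      (2 * ∫ g, f g ∂(gm n) + K * Real.sqrt (1 / (N:ℝ)))) Filter.atTop
      (nhds ((∫ g, w g ∂(gm n)) * (2 * ∫ g, f g ∂(gm n) + K * Real.sqrt 0))) := by
    refine Filter.Tendsto.const_mul _ (Filter.Tendsto.const_add _ (Filter.Tendsto.const_mul _ ?_))
    exact (Real.continuous_sqrt.tendsto 0).comp tendsto_one_div_atTop_nhds_zero_nat
  have h2 := ge_of_tendsto hlim (Filter.eventually_atTop.2 ⟨1, fun N hN' => hN N hN'⟩)
  rw [Real.sqrt_zero, mul_zero, add_zero] at h2
  exact h2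

end Pool.Agent.TH985.TC
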