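import Pool.Agent.TH985.TC.Conc

/-!
# The barycentre map of a log-concave tilt of a Gaussian measure is a contraction
-/

set_option autoImplicit false

open MeasureTheory ProbabilityTheory
open scoped RealInnerProductSpace ENNReal

namespace Pool.Agent.TH985.TC

open Pool.Agent.PZ871 (E gm)

variable {n : ℕ}

/-- the barycentre map -/
noncomputable def Mn (n : ℕ) (w : E n → ℝ) (s : ℝ) (y : E n) : E n :=
  (T n s w y)⁻¹ • T n s (fun z => w z • z) y

theorem id_int (n : ℕ) : Integrable (fun g : E n => g) (gm n) := by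
  have : IsGaussian (gm n) := by unfold gm; infer_instance
  exact IsGaussian.integrable_id (μ := gm n)

theorem wsmul_int {w : E n → ℝ} (hw : Wt n w) (y : E n) (r : ℝ) :
    Integrable (fun g => w (y + r • g) • g) (gm n) := by
  refine (norm_int n).mono' ((hw.affine y r).cont.smul continuous_id).aestronglyMeasurable
    (Filter.Eventually.of_forall fun g => ?_)
  rw [norm_smul]
  exact mul_le_of_le_one_left (norm_nonneg _) ((hw.affine y r).norm_le g)

theorem T_smul_id {w : E n → ℝ} (hw : Wt n w) (s : ℝ) (y : E n) :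
    T n s (fun z => w z • z) y =
      T n s w y • y + Real.sqrt s • ∫ g, w (y + Real.sqrt s • g) • g ∂(gm n) := by
  unfold T
  have h1 : ∀ g, w (y + Real.sqrt s • g) • (y + Real.sqrt s • g) =
      w (y + Real.sqrt s • g) • y + Real.sqrt s • (w (y + Real.sqrt s • g) • g) := by
    intro g
    rw [smul_add, smul_comm]
  simp_rw [h1]
  have i1 : Integrable (fun g => w (y + Real.sqrt s • g) • y) (gm n) :=
    (hw.affine y _).integrable.smul_const y
  have i2 : Integrable (fun g => Real.sqrt s • (w (y + Real.sqrt s • g) • g)) (gm n) :=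
    (wsmul_int hw y _).smul (Real.sqrt s)
  rw [integral_add i1 i2, integral_smul_const, integral_smul]

theorem T_pos {w : E n → ℝ} (hw : Wt n w) (s : ℝ) (y : E n) : 0 < T n s w y :=
  (hw.heat s).pos y

theorem Mn_spec {w : E n → ℝ} (hw : Wt n w) (s : ℝ) (y : E n) :
    T n s w y • Mn n w s y = T n s (fun z => w z • z) y := by
  unfold Mn
  rw [smul_smul, mul_inv_cancel₀ (T_pos hw s y).ne', one_smul]

theorem Mn_zero {w : E n → ℝ} (hw : Wt n w) (y : E n) : Mn n w 0 y = y := by
  unfold Mn T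
  simp only [Real.sqrt_zero, zero_smul, add_zero, integral_const, probReal_univ, one_smul]
  rw [smul_smul, inv_mul_cancel₀ (hw.pos y).ne', one_smul]

theorem T_zero {F : Type*} [NormedAddCommGroup F] [NormedSpace ℝ F] [CompleteSpace F]
    (φ : E n → F) (y : E n) : T n 0 φ y = φ y := by
  unfold T
  simp only [Real.sqrt_zero, zero_smul, add_zero, integral_const, probReal_univ, one_smul]

/-- lower bound from Jensen's inequality -/
theorem jensen_low {w : E n → ℝ} (hw : Wt n w) {s : ℝ} (hs : 0 < s) (y v : E n) :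
    Real.log (T n s w y) + (⟪Mn n w s y - y, v⟫ / s - ‖v‖^2 / (2*s)) ≤
      Real.log (T n s w (y + v)) := by
  set r := Real.sqrt s with hr
  have hr0 : 0 < r := Real.sqrt_pos.2 hs
  have hr2 : r * r = s := Real.mul_self_sqrt hs.le
  set f : E n → ℝ := fun g => w (y + r • g) with hf
  have hfW : Wt n f := hw.affine y r
  set b : E n := r⁻¹ • v with hb
  have hrb : r • b = v := by rw [hb, smul_smul, mul_inv_cancel₀ hr0.ne', one_smul]
  set Z := T n s w y with hZ
  have hZpos : 0 < Z := T_pos hw s y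
  have hZf : ∫ g, f g ∂(gm n) = Z := rfl
  have hZv : T n s w (y + v) = ∫ g, f (g + b) ∂(gm n) := by
    unfold T
    refine integral_congr_ae (Filter.Eventually.of_forall fun g => ?_)
    simp only [hf]
    congr 1
    rw [smul_add, hrb]
    abel
  have hfb : Integrable (fun g => f (g + b)) (gm n) := by
    refine (integrable_const (1:ℝ)).mono' (hfW.cont.comp (by fun_prop)).aestronglyMeasurable
      (Filter.Eventually.of_forall fun g => hfW.norm_le _)
  have hcm := cm_int n b f hfW.cont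
  have hci := cm_integrable n b f hfW.cont hfb
  have hgi : Integrable (fun g => f g • g) (gm n) := wsmul_int hw y r
  have hbi : Integrable (fun g => f g * ⟪b, g⟫) (gm n) := by
    have h := hgi.const_inner (𝕜 := ℝ) b
    refine h.congr (Filter.Eventually.of_forall fun g => ?_)
    simp only
    rw [real_inner_smul_right]
  have hbe : ∫ g, f g * ⟪b, g⟫ ∂(gm n) = Z * (⟪Mn n w s y - y, v⟫ / s) := by
    have h1 : ∫ g, f g * ⟪b, g⟫ ∂(gm n) = ⟪b, ∫ g, f g • g ∂(gm n)⟫ := by
      have h := (innerSL ℝ b).integral_comp_comm hgi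
      simp only [innerSL_apply_apply] at h
      rw [← h]
      refine integral_congr_ae (Filter.Eventually.of_forall fun g => ?_)
      simp only
      rw [real_inner_smul_right]
    have h2 : r • ∫ g, f g • g ∂(gm n) = Z • (Mn n w s y - y) := by
      rw [smul_sub, Mn_spec hw s y, T_smul_id hw s y]
      simp only [hf, hZ, hr]
      abel
    have h3 : ∫ g, f g • g ∂(gm n) = r⁻¹ • (Z • (Mn n w s y - y)) := by
      rw [← h2, smul_smul, inv_mul_cancel₀ hr0.ne', one_smul]
    rw [h1, h3, hb, real_inner_smul_right, real_inner_smul_right, real_inner_smul_left,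
      real_inner_comm, ← hr2]
    field_simp
  set t0 : ℝ := ⟪Mn n w s y - y, v⟫ / s with ht0
  have hbn : ‖b‖^2/2 = ‖v‖^2/(2*s) := by
    rw [hb, norm_smul, mul_pow, Real.norm_of_nonneg (inv_pos.2 hr0).le, ← hr2]
    field_simp
  have key : Real.exp (t0 - ‖b‖^2/2) * Z ≤ T n s w (y + v) := by
    rw [hZv, hcm]
    have e1 : ∫ g, Real.exp (t0 - ‖b‖^2/2) * (f g + f g * ⟪b, g⟫ - t0 * f g) ∂(gm n) =
        Real.exp (t0 - ‖b‖^2/2) * Z := by
      have hadd : Integrable (fun g => f g + f g * ⟪b, g⟫) (gm n) := hfW.integrable.add hbi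
      rw [integral_const_mul, integral_sub hadd (hfW.integrable.const_mul _),
        integral_add hfW.integrable hbi, integral_const_mul, hbe, hZf]
      ring
    rw [← e1]
    have hadd : Integrable (fun g => f g + f g * ⟪b, g⟫) (gm n) := hfW.integrable.add hbi
    refine integral_mono ((hadd.sub (hfW.integrable.const_mul _)).const_mul _) hci fun g => ?_
    simp only
    have h1 := Real.add_one_le_exp (⟪b, g⟫ - t0)
    have h2 : Real.exp (⟪b, g⟫ - ‖b‖^2/2) = Real.exp (t0 - ‖b‖^2/2) * Real.exp (⟪b, g⟫ - t0) := by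
      rw [← Real.exp_add]; congr 1; ring
    rw [h2, mul_assoc]
    refine mul_le_mul_of_nonneg_left ?_ (Real.exp_pos _).le
    nlinarith [hfW.pos g]
  have hlog := Real.log_le_log (mul_pos (Real.exp_pos _) hZpos) key
  rw [Real.log_mul (Real.exp_pos _).ne' hZpos.ne', Real.log_exp, hbn] at hlog
  linarith

/-- midpoint concavity of the logarithm -/
theorem log_mid {w : E n → ℝ} (hw : Wt n w) (s : ℝ) (y z : E n) :
    Real.log (T n s w y) + Real.log (T n s w z) ≤
      2 * Real.log (T n s w ((1/2:ℝ) • (y + z))) := by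
  have h := (hw.heat s).mid y z
  have h1 := Real.log_le_log (mul_pos (T_pos hw s y) (T_pos hw s z)) h
  rw [Real.log_mul (T_pos hw s y).ne' (T_pos hw s z).ne', Real.log_pow] at h1
  exact_mod_cast h1

/-- upper bound from concavity -/
theorem concave_up {w : E n → ℝ} (hw : Wt n w) {s : ℝ} (hs : 0 < s) (y v : E n) :
    Real.log (T n s w (y + v)) ≤ Real.log (T n s w y) + ⟪Mn n w s y - y, v⟫ / s := by
  set l : E n → ℝ := fun z => Real.log (T n s w z) with hl
  have hmid : ∀ y z, l y + l z ≤ 2 * l ((1/2:ℝ) • (y + z)) := log_mid hw s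
  have hlow : ∀ v, l y + (⟪Mn n w s y - y, v⟫ / s - ‖v‖^2 / (2*s)) ≤ l (y + v) :=
    jensen_low hw hs y
  have hdy : ∀ k : ℕ, l y + (1/2:ℝ)^k * (l (y + v) - l y) ≤ l (y + ((1/2:ℝ)^k) • v) := by
    intro k
    induction k with
    | zero => simp
    | succ k ih =>
      have h := hmid y (y + ((1/2:ℝ)^k) • v)
      have e : (1/2:ℝ) • (y + (y + ((1/2:ℝ)^k) • v)) = y + ((1/2:ℝ)^(k+1)) • v := by
        rw [pow_succ]
        module
      rw [e] at h
      have e2 : (1/2:ℝ)^(k+1) = (1/2:ℝ)^k * (1/2) := pow_succ _ _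
      have e3 : (1/2:ℝ)^(k+1) * (l (y + v) - l y) = (1/2) * ((1/2:ℝ)^k * (l (y + v) - l y)) := by
        rw [e2]; ring
      linarith
  have hup : ∀ t : ℝ, l (y + t • v) ≤ l y + t * (⟪Mn n w s y - y, v⟫ / s) +
      t^2 * (‖v‖^2 / (2*s)) := by
    intro t
    have h := hmid (y + t • v) (y + (-t) • v)
    have e : (1/2:ℝ) • (y + t • v + (y + (-t) • v)) = y := by module
    rw [e] at h
    have h2 := hlow ((-t) • v)
    have e2 : ⟪Mn n w s y - y, (-t) • v⟫ / s = -t * (⟪Mn n w s y - y, v⟫ / s) := by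
      rw [real_inner_smul_right]; ring
    have e3 : ‖(-t) • v‖^2 / (2*s) = t^2 * (‖v‖^2 / (2*s)) := by
      rw [norm_smul, mul_pow, Real.norm_eq_abs, sq_abs]; ring
    rw [e2, e3] at h2
    linarith
  set a : ℝ := ⟪Mn n w s y - y, v⟫ / s with ha
  set c : ℝ := ‖v‖^2 / (2*s) with hc
  have hk : ∀ k : ℕ, l (y + v) - l y - a ≤ (1/2:ℝ)^k * c := by
    intro k
    have h1 := (hdy k).trans (hup ((1/2:ℝ)^k))
    have hp : 0 < (1/2:ℝ)^k := by positivity
    have h2 : (1/2:ℝ)^k * (l (y + v) - l y - a) ≤ (1/2:ℝ)^k * ((1/2:ℝ)^k * c) := by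
      nlinarith
    exact le_of_mul_le_mul_left h2 hp
  have hlim : Filter.Tendsto (fun k : ℕ => (1/2:ℝ)^k * c) Filter.atTop (nhds (0 * c)) :=
    (tendsto_pow_atTop_nhds_zero_of_lt_one (by norm_num) (by norm_num)).mul_const c
  have h0 : l (y + v) - l y - a ≤ 0 * c := ge_of_tendsto' hlim hk
  rw [zero_mul] at h0
  linarith

/-- the barycentre map is a contraction -/
theorem Mn_lip {w : E n → ℝ} (hw : Wt n w) {s : ℝ} (hs : 0 ≤ s) (y z : E n) :
    ‖Mn n w s y - Mn n w s z‖ ≤ ‖y - z‖ := by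
  rcases eq_or_lt_of_le hs with h0 | hs
  · rw [← h0, Mn_zero hw, Mn_zero hw]
  set p := Mn n w s y with hp
  set q := Mn n w s z with hq
  set d := z - y with hd
  set r := q - p with hr
  -- first pair
  have a1 := jensen_low hw hs y (d - r)
  have a2 := concave_up hw hs z (-r)
  have b1 := jensen_low hw hs z (-(d - r))
  have b2 := concave_up hw hs y r
  have e1 : y + (d - r) = z + (-r) := by rw [hd]; abel
  have e2 : z + -(d - r) = y + r := by rw [hd]; abel
  rw [e1] at a1
  rw [e2] at b1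
  have k1 := a1.trans a2
  have k2 := b1.trans b2
  rw [← hp] at k1 k2
  rw [← hq] at k1 k2
  have s1 : ⟪p - y, d - r⟫ / s - ‖d - r‖^2/(2*s) + (⟪q - z, -(d - r)⟫ / s - ‖-(d - r)‖^2/(2*s)) ≤
      ⟪q - z, -r⟫ / s + ⟪p - y, r⟫ / s := by linarith
  have s2 : ⟪p - y, d - r⟫ - ‖d - r‖^2/2 + (⟪q - z, -(d - r)⟫ - ‖-(d - r)‖^2/2) ≤
      ⟪q - z, -r⟫ + ⟪p - y, r⟫ := by
    have := mul_le_mul_of_nonneg_left s1 hs.le
    have e3 : s * (⟪p - y, d - r⟫ / s - ‖d - r‖^2/(2*s) +
        (⟪q - z, -(d - r)⟫ / s - ‖-(d - r)‖^2/(2*s))) =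
        ⟪p - y, d - r⟫ - ‖d - r‖^2/2 + (⟪q - z, -(d - r)⟫ - ‖-(d - r)‖^2/2) := by
      field_simp
    have e4 : s * (⟪q - z, -r⟫ / s + ⟪p - y, r⟫ / s) = ⟪q - z, -r⟫ + ⟪p - y, r⟫ := by
      field_simp
    rw [e3, e4] at this
    exact this
  have e5 : q - z = (p - y) - (d - r) := by rw [hd, hr]; abel
  have e6 : ⟪q - z, -(d - r)⟫ = -(⟪p - y, d - r⟫ - ‖d - r‖^2) := by
    rw [e5, inner_neg_right, inner_sub_left (p - y) (d - r) (d - r), real_inner_self_eq_norm_sq]
  have e7 : ⟪q - z, -r⟫ = -(⟪p - y, r⟫ - ⟪d - r, r⟫) := by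
    rw [e5, inner_neg_right, inner_sub_left (p - y) (d - r) r]
  rw [e6, e7, norm_neg] at s2
  have s3 : 0 ≤ ⟪d - r, r⟫ := by linarith
  rw [inner_sub_left, real_inner_self_eq_norm_sq] at s3
  have s4 : ‖r‖ * ‖r‖ ≤ ‖d‖ * ‖r‖ := by
    have := real_inner_le_norm d r
    nlinarith
  have s5 : ‖r‖ ≤ ‖d‖ := by
    by_cases h : ‖r‖ = 0
    · rw [h]; exact norm_nonneg _
    · exact le_of_mul_le_mul_right s4 (lt_of_le_of_ne (norm_nonneg _) (Ne.symm h))
  rw [norm_sub_rev p q, norm_sub_rev y z]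
  exact s5

end Pool.Agent.TH985.TC
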