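import Pool.Agent.TH985.TC.Core

/-!
# Minimising a Gaussian average of a soft maximum of affine functions
-/

set_option autoImplicit false
set_option linter.unusedSectionVars false

open MeasureTheory ProbabilityTheory
open scoped RealInnerProductSpace ENNReal

namespace Pool.Agent.TH985.TC

open Pool.Agent.PZ871 (E gm)

variable {n : ℕ}

instance gm_openPos (n : ℕ) : (gm n).IsOpenPosMeasure := by
  have h : (volume : Measure (E n)) ≪ gm n := by
    rw [Pool.Agent.PZ871.M_gdens.gdens]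
    refine withDensity_absolutelyContinuous' (by fun_prop) ?_
    refine Filter.Eventually.of_forall fun x => ?_
    simp only [ne_eq, ENNReal.ofReal_eq_zero, not_le]
    positivity
  exact h.isOpenPosMeasure

theorem gm_ac (n : ℕ) : gm n ≪ (volume : Measure (E n)) := by
  rw [Pool.Agent.PZ871.M_gdens.gdens]
  exact withDensity_absolutelyContinuous _ _

variable {ι : Type} [Fintype ι]

/-- soft maximum of `0` and the `u i` -/
noncomputable def sm (u : ι → ℝ) : ℝ := Real.log (1 + ∑ i, Real.exp (u i))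

theorem sm_pos (u : ι → ℝ) : 0 < 1 + ∑ i, Real.exp (u i) := by
  have : 0 ≤ ∑ i, Real.exp (u i) := Finset.sum_nonneg fun i _ => (Real.exp_pos _).le
  linarith

theorem sm_nonneg (u : ι → ℝ) : 0 ≤ sm u := by
  refine Real.log_nonneg ?_
  have : 0 ≤ ∑ i, Real.exp (u i) := Finset.sum_nonneg fun i _ => (Real.exp_pos _).le
  linarith

theorem sm_le_add (u v : ι → ℝ) : sm u ≤ sm v + ∑ i, |u i - v i| := by
  have h : 1 + ∑ i, Real.exp (u i) ≤ (1 + ∑ i, Real.exp (v i)) * Real.exp (∑ i, |u i - v i|) := by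
    rw [add_mul, one_mul, Finset.sum_mul]
    refine add_le_add ?_ (Finset.sum_le_sum fun i _ => ?_)
    · exact Real.one_le_exp (Finset.sum_nonneg fun i _ => abs_nonneg _)
    · rw [← Real.exp_add]
      apply Real.exp_le_exp.2
      have h1 : |u i - v i| ≤ ∑ i, |u i - v i| :=
        Finset.single_le_sum (f := fun i => |u i - v i|) (fun i _ => abs_nonneg _)
          (Finset.mem_univ i)
      have h2 := le_abs_self (u i - v i)
      linarith
  have h3 := Real.log_le_log (sm_pos u) h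
  rwa [Real.log_mul (sm_pos v).ne' (Real.exp_pos _).ne', Real.log_exp] at h3

theorem sm_lip (u v : ι → ℝ) : |sm u - sm v| ≤ ∑ i, |u i - v i| := by
  rw [abs_sub_le_iff]
  refine ⟨by linarith [sm_le_add u v], ?_⟩
  have := sm_le_add v u
  simp_rw [abs_sub_comm (v _)] at this
  linarith

theorem le_sm (u : ι → ℝ) (i : ι) : max (u i) 0 ≤ sm u := by
  refine max_le ?_ (sm_nonneg u)
  have h : Real.exp (u i) ≤ 1 + ∑ i, Real.exp (u i) := by
    have : Real.exp (u i) ≤ ∑ i, Real.exp (u i) :=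
      Finset.single_le_sum (f := fun i => Real.exp (u i)) (fun i _ => (Real.exp_pos _).le)
        (Finset.mem_univ i)
    linarith
  have h3 := Real.log_le_log (Real.exp_pos _) h
  rwa [Real.log_exp] at h3

theorem sm_cont : Continuous (sm : (ι → ℝ) → ℝ) := by
  unfold sm
  refine Continuous.log (by fun_prop) fun u => (sm_pos u).ne'

/-- derivative along a line -/
theorem sm_deriv (u v : ι → ℝ) (t : ℝ) :
    HasDerivAt (fun t : ℝ => sm (fun i => u i + t * v i))
      (∑ i, Real.exp (u i + t * v i) / (1 + ∑ l, Real.exp (u l + t * v l)) * v i) t := by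
  have h1 : HasDerivAt (fun t : ℝ => 1 + ∑ i, Real.exp (u i + t * v i))
      (∑ i, Real.exp (u i + t * v i) * v i) t := by
    refine HasDerivAt.const_add _ ?_
    have : ∀ i ∈ (Finset.univ : Finset ι), HasDerivAt (fun t : ℝ => Real.exp (u i + t * v i))
        (Real.exp (u i + t * v i) * v i) t := by
      intro i _
      have h0 : HasDerivAt (fun t : ℝ => u i + t * v i) (v i) t := by
        simpa using ((hasDerivAt_id t).mul_const (v i)).const_add (u i)
      exact h0.exp
    exact HasDerivAt.fun_sum this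
  have h2 := h1.log (sm_pos (fun i => u i + t * v i)).ne'
  refine h2.congr_deriv ?_
  rw [Finset.sum_div]
  refine Finset.sum_congr rfl fun i _ => ?_
  ring

section Minimiser

variable {P : Type} [NormedAddCommGroup P] [NormedSpace ℝ P] [FiniteDimensional ℝ P]

/-- the affine functions -/
noncomputable def uf (ℓ : ι → P →L[ℝ] E n) (p : ι → E n) (a : P) (y : E n) (i : ι) : ℝ :=
  ⟪ℓ i a, y - p i⟫

/-- the functional to be minimised -/
noncomputable def Lf (ℓ : ι → P →L[ℝ] E n) (p : ι → E n) (a : P) : ℝ :=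
  ∫ y, sm (uf ℓ p a y) ∂(gm n)

theorem uf_abs_int (ℓ : ι → P →L[ℝ] E n) (p : ι → E n) (a : P) (i : ι) :
    Integrable (fun y => |uf ℓ p a y i|) (gm n) := by
  have h : Integrable (fun y : E n => ‖ℓ i a‖ * (‖y‖ + ‖p i‖)) (gm n) :=
    ((norm_int n).add (integrable_const _)).const_mul _
  refine h.mono' ?_ (Filter.Eventually.of_forall fun y => ?_)
  · unfold uf
    exact (by fun_prop : Continuous fun y : E n => |⟪ℓ i a, y - p i⟫|).aestronglyMeasurable
  · rw [Real.norm_eq_abs, abs_abs]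
    refine (abs_real_inner_le_norm _ _).trans ?_
    exact mul_le_mul_of_nonneg_left (norm_sub_le _ _) (norm_nonneg _)

theorem uf_cont (ℓ : ι → P →L[ℝ] E n) (p : ι → E n) (a : P) :
    Continuous (fun y => uf ℓ p a y) := by
  unfold uf
  fun_prop

theorem uf_cont' (ℓ : ι → P →L[ℝ] E n) (p : ι → E n) (y : E n) (i : ι) :
    Continuous (fun a => uf ℓ p a y i) := by
  unfold uf
  fun_prop

theorem sm_int (ℓ : ι → P →L[ℝ] E n) (p : ι → E n) (a : P) :
    Integrable (fun y => sm (uf ℓ p a y)) (gm n) := by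
  have h : Integrable (fun y : E n => sm (fun _ : ι => (0:ℝ)) + ∑ i, |uf ℓ p a y i|) (gm n) :=
    (integrable_const _).add (integrable_finsetSum _ fun i _ => uf_abs_int ℓ p a i)
  refine h.mono' (sm_cont.comp (uf_cont ℓ p a)).aestronglyMeasurable
    (Filter.Eventually.of_forall fun y => ?_)
  rw [Real.norm_of_nonneg (sm_nonneg _)]
  have := sm_le_add (uf ℓ p a y) (fun _ : ι => (0:ℝ))
  simpa using this

/-- constant used for continuity -/
noncomputable def Bc (ℓ : ι → P →L[ℝ] E n) (p : ι → E n) : ℝ :=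
  ∑ i, ‖ℓ i‖ * ∫ y, (‖y‖ + ‖p i‖) ∂(gm n)

theorem uf_sub_le (ℓ : ι → P →L[ℝ] E n) (p : ι → E n) (a b : P) (y : E n) (i : ι) :
    |uf ℓ p a y i - uf ℓ p b y i| ≤ ‖ℓ i‖ * (‖y‖ + ‖p i‖) * ‖a - b‖ := by
  unfold uf
  rw [← inner_sub_left, ← map_sub]
  refine (abs_real_inner_le_norm _ _).trans ?_
  calc ‖(ℓ i) (a - b)‖ * ‖y - p i‖ ≤ (‖ℓ i‖ * ‖a - b‖) * (‖y‖ + ‖p i‖) :=
        mul_le_mul ((ℓ i).le_opNorm _) (norm_sub_le _ _) (norm_nonneg _) (by positivity)
    _ = _ := by ring

theorem Lf_lip (ℓ : ι → P →L[ℝ] E n) (p : ι → E n) (a b : P) :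
    |Lf ℓ p a - Lf ℓ p b| ≤ Bc ℓ p * ‖a - b‖ := by
  unfold Lf
  rw [← integral_sub (sm_int ℓ p a) (sm_int ℓ p b)]
  have hI : ∀ i, Integrable (fun y : E n => ‖ℓ i‖ * (‖y‖ + ‖p i‖) * ‖a - b‖) (gm n) := fun i =>
    (((norm_int n).add (integrable_const _)).const_mul _).mul_const _
  calc |∫ y, (sm (uf ℓ p a y) - sm (uf ℓ p b y)) ∂(gm n)|
      ≤ ∫ y, |sm (uf ℓ p a y) - sm (uf ℓ p b y)| ∂(gm n) := abs_integral_le_integral_abs
    _ ≤ ∫ y, ∑ i, ‖ℓ i‖ * (‖y‖ + ‖p i‖) * ‖a - b‖ ∂(gm n) := by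
        refine integral_mono ((sm_int ℓ p a).sub (sm_int ℓ p b)).abs
          (integrable_finsetSum _ fun i _ => hI i) fun y => ?_
        exact (sm_lip _ _).trans (Finset.sum_le_sum fun i _ => uf_sub_le ℓ p a b y i)
    _ = _ := by
        rw [integral_finsetSum _ fun i _ => hI i, Bc, Finset.sum_mul]
        refine Finset.sum_congr rfl fun i _ => ?_
        rw [integral_mul_const, integral_const_mul]

theorem Lf_cont (ℓ : ι → P →L[ℝ] E n) (p : ι → E n) : Continuous (Lf ℓ p) := by
  have : LipschitzWith (Real.toNNReal (Bc ℓ p)) (Lf ℓ p) := by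
    refine LipschitzWith.of_dist_le_mul fun a b => ?_
    rw [Real.dist_eq, dist_eq_norm]
    refine (Lf_lip ℓ p a b).trans ?_
    exact mul_le_mul_of_nonneg_right (Real.le_coe_toNNReal _) (norm_nonneg _)
  exact this.continuous

/-- the positively homogeneous minorant -/
noncomputable def psi (ℓ : ι → P →L[ℝ] E n) (p : ι → E n) (a : P) : ℝ :=
  ∑ i, ∫ y, max (uf ℓ p a y i) 0 ∂(gm n)

theorem pos_int (ℓ : ι → P →L[ℝ] E n) (p : ι → E n) (a : P) (i : ι) :
    Integrable (fun y => max (uf ℓ p a y i) 0) (gm n) := by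
  refine (uf_abs_int ℓ p a i).mono' ?_ (Filter.Eventually.of_forall fun y => ?_)
  · have : Continuous fun y => uf ℓ p a y i := (continuous_apply i).comp (uf_cont ℓ p a)
    exact (this.max continuous_const).aestronglyMeasurable
  · rw [Real.norm_of_nonneg (le_max_right _ _)]
    exact max_le (le_abs_self _) (abs_nonneg _)

theorem psi_le (ℓ : ι → P →L[ℝ] E n) (p : ι → E n) (a : P) :
    psi ℓ p a ≤ (Fintype.card ι) * Lf ℓ p a := by
  unfold psi Lf
  rw [← nsmul_eq_mul, ← Finset.card_univ, ← Finset.sum_const]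
  exact Finset.sum_le_sum fun i _ => integral_mono (pos_int ℓ p a i) (sm_int ℓ p a)
    fun y => le_sm _ i

theorem psi_smul (ℓ : ι → P →L[ℝ] E n) (p : ι → E n) (a : P) {t : ℝ} (ht : 0 ≤ t) :
    psi ℓ p (t • a) = t * psi ℓ p a := by
  unfold psi
  rw [Finset.mul_sum]
  refine Finset.sum_congr rfl fun i _ => ?_
  rw [← integral_const_mul]
  refine integral_congr_ae (Filter.Eventually.of_forall fun y => ?_)
  simp only [uf, map_smul, real_inner_smul_left]
  rw [mul_max_of_nonneg _ _ ht, mul_zero]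

theorem psi_cont (ℓ : ι → P →L[ℝ] E n) (p : ι → E n) : Continuous (psi ℓ p) := by
  unfold psi
  refine continuous_finsetSum _ fun i _ => ?_
  have : LipschitzWith (Real.toNNReal (‖ℓ i‖ * ∫ y, (‖y‖ + ‖p i‖) ∂(gm n)))
      (fun a => ∫ y, max (uf ℓ p a y i) 0 ∂(gm n)) := by
    refine LipschitzWith.of_dist_le_mul fun a b => ?_
    rw [Real.dist_eq, dist_eq_norm]
    refine le_trans ?_ (mul_le_mul_of_nonneg_right (Real.le_coe_toNNReal _) (norm_nonneg _))
    rw [← integral_sub (pos_int ℓ p a i) (pos_int ℓ p b i)]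
    have hI : Integrable (fun y : E n => ‖ℓ i‖ * (‖y‖ + ‖p i‖) * ‖a - b‖) (gm n) :=
      (((norm_int n).add (integrable_const _)).const_mul _).mul_const _
    calc |∫ y, (max (uf ℓ p a y i) 0 - max (uf ℓ p b y i) 0) ∂(gm n)|
        ≤ ∫ y, |max (uf ℓ p a y i) 0 - max (uf ℓ p b y i) 0| ∂(gm n) :=
          abs_integral_le_integral_abs
      _ ≤ ∫ y, ‖ℓ i‖ * (‖y‖ + ‖p i‖) * ‖a - b‖ ∂(gm n) := by
          refine integral_mono ((pos_int ℓ p a i).sub (pos_int ℓ p b i)).abs hI fun y => ?_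
          exact (abs_max_sub_max_le_abs _ _ _).trans (uf_sub_le ℓ p a b y i)
      _ = _ := by rw [integral_mul_const, integral_const_mul]
  exact this.continuous

theorem psi_pos (ℓ : ι → P →L[ℝ] E n) (p : ι → E n)
    (hinj : ∀ a : P, (∀ i, ℓ i a = 0) → a = 0) {a : P} (ha : a ≠ 0) : 0 < psi ℓ p a := by
  have : ∃ i, ℓ i a ≠ 0 := by
    by_contra hcon
    push Not at hcon
    exact ha (hinj a hcon)
  obtain ⟨i, hi⟩ := this
  refine Finset.sum_pos' (fun j _ => integral_nonneg fun y => le_max_right _ _)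
    ⟨i, Finset.mem_univ i, ?_⟩
  have hc : Continuous fun y => max (uf ℓ p a y i) 0 :=
    ((continuous_apply i).comp (uf_cont ℓ p a)).max continuous_const
  refine (integral_pos_iff_support_of_nonneg (f := fun y => max (uf ℓ p a y i) 0)
    (fun y => le_max_right _ _) (pos_int ℓ p a i)).2 ?_
  refine (hc.isOpen_support).measure_pos _ ⟨p i + ℓ i a, ?_⟩
  rw [Function.mem_support]
  simp only [uf, add_sub_cancel_left]
  have : 0 < ⟪ℓ i a, ℓ i a⟫ := by
    rw [real_inner_self_eq_norm_sq]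
    positivity
  exact (lt_max_of_lt_left this).ne'

theorem exists_min (ℓ : ι → P →L[ℝ] E n) (p : ι → E n)
    (hinj : ∀ a : P, (∀ i, ℓ i a = 0) → a = 0) : ∃ a : P, ∀ b : P, Lf ℓ p a ≤ Lf ℓ p b := by
  have : ProperSpace P := FiniteDimensional.proper_real P
  -- lower bound on the sphere
  obtain ⟨c, hc, hcb⟩ : ∃ c : ℝ, 0 < c ∧ ∀ a : P, c * ‖a‖ ≤ psi ℓ p a := by
    by_cases hne : (Metric.sphere (0:P) 1).Nonempty
    · obtain ⟨a0, ha0, hmin⟩ := (isCompact_sphere (0:P) 1).exists_isMinOn hne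
        (psi_cont ℓ p).continuousOn
      have ha0' : a0 ≠ 0 := by
        rintro rfl
        simp at ha0
      refine ⟨psi ℓ p a0, psi_pos ℓ p hinj ha0', fun a => ?_⟩
      by_cases haz : a = 0
      · subst haz
        have : psi ℓ p (0:P) = 0 := by
          have := psi_smul ℓ p (0:P) (le_refl (0:ℝ))
          simpa using this
        simp [this]
      · have hn : 0 < ‖a‖ := norm_pos_iff.2 haz
        have hm : ‖a‖⁻¹ • a ∈ Metric.sphere (0:P) 1 := by
          simp [norm_smul, hn.ne']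
        have h1 : psi ℓ p a0 ≤ psi ℓ p (‖a‖⁻¹ • a) := hmin hm
        rw [psi_smul ℓ p a (by positivity)] at h1
        calc psi ℓ p a0 * ‖a‖ ≤ (‖a‖⁻¹ * psi ℓ p a) * ‖a‖ :=
              mul_le_mul_of_nonneg_right h1 hn.le
          _ = psi ℓ p a := by field_simp
    · refine ⟨1, one_pos, fun a => ?_⟩
      have haz : a = 0 := by
        by_contra haz
        have hn : 0 < ‖a‖ := norm_pos_iff.2 haz
        refine hne ⟨‖a‖⁻¹ • a, ?_⟩
        simp [norm_smul, hn.ne']
      subst haz
      have : psi ℓ p (0:P) = 0 := by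
        have := psi_smul ℓ p (0:P) (le_refl (0:ℝ))
        simpa using this
      simp [this]
  -- compactness
  set N : ℝ := (Fintype.card ι : ℝ) with hN
  have hN0 : 0 ≤ N := Nat.cast_nonneg _
  set R : ℝ := N * Lf ℓ p 0 / c with hR
  have hL0 : 0 ≤ Lf ℓ p 0 := integral_nonneg fun y => sm_nonneg _
  have hR0 : 0 ≤ R := by positivity
  obtain ⟨a, haB, hmin⟩ := (isCompact_closedBall (0:P) R).exists_isMinOn
    ⟨0, by simpa using hR0⟩ (Lf_cont ℓ p).continuousOn
  refine ⟨a, fun b => ?_⟩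
  by_cases hb : b ∈ Metric.closedBall (0:P) R
  · exact hmin hb
  · have h0 : Lf ℓ p a ≤ Lf ℓ p 0 := hmin (by simpa using hR0)
    refine h0.trans ?_
    by_contra hcon
    push Not at hcon
    apply hb
    rw [mem_closedBall_zero_iff, hR, le_div_iff₀ hc]
    calc ‖b‖ * c = c * ‖b‖ := mul_comm _ _
      _ ≤ psi ℓ p b := hcb b
      _ ≤ N * Lf ℓ p b := psi_le ℓ p b
      _ ≤ N * Lf ℓ p 0 := mul_le_mul_of_nonneg_left hcon.le hN0

/-- the weights -/
noncomputable def wt (ℓ : ι → P →L[ℝ] E n) (p : ι → E n) (a : P) (i : ι) (y : E n) : ℝ :=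
  Real.exp (uf ℓ p a y i) / (1 + ∑ l, Real.exp (uf ℓ p a y l))

theorem uf_mid (ℓ : ι → P →L[ℝ] E n) (p : ι → E n) (a : P) (x y : E n) (i : ι) :
    uf ℓ p a ((1/2:ℝ) • (x + y)) i = (uf ℓ p a x i + uf ℓ p a y i) / 2 := by
  unfold uf
  rw [inner_sub_right, inner_sub_right, inner_sub_right, real_inner_smul_right, inner_add_right]
  ring

theorem wt_Wt (ℓ : ι → P →L[ℝ] E n) (p : ι → E n) (a : P) (i : ι) : Wt n (wt ℓ p a i) where
  cont := by
    unfold wt
    have h := uf_cont ℓ p a
    have h1 : ∀ l, Continuous fun y => uf ℓ p a y l := fun l => (continuous_apply l).comp h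
    exact (Real.continuous_exp.comp (h1 i)).div
      (continuous_const.add (continuous_finsetSum _ fun l _ => Real.continuous_exp.comp (h1 l)))
      fun y => (sm_pos _).ne'
  pos := fun y => div_pos (Real.exp_pos _) (sm_pos _)
  le1 := fun y => by
    unfold wt
    rw [div_le_one (sm_pos _)]
    have : Real.exp (uf ℓ p a y i) ≤ ∑ l, Real.exp (uf ℓ p a y l) :=
      Finset.single_le_sum (f := fun l => Real.exp (uf ℓ p a y l))
        (fun l _ => (Real.exp_pos _).le) (Finset.mem_univ i)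
    linarith
  mid := fun x y => by
    unfold wt
    simp only [uf_mid]
    rw [div_mul_div_comm, div_pow]
    have e1 : Real.exp ((uf ℓ p a x i + uf ℓ p a y i) / 2) ^ 2 =
        Real.exp (uf ℓ p a x i) * Real.exp (uf ℓ p a y i) := by
      rw [← Real.exp_nat_mul, ← Real.exp_add]
      congr 1
      push_cast
      ring
    rw [e1]
    refine div_le_div_of_nonneg_left (by positivity) ?_ ?_
    · have : 0 ≤ ∑ l, Real.exp ((uf ℓ p a x l + uf ℓ p a y l) / 2) :=
        Finset.sum_nonneg fun i _ => (Real.exp_pos _).le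
      positivity
    · set s : ι → ℝ := fun l => Real.exp (uf ℓ p a x l / 2) with hs
      set t : ι → ℝ := fun l => Real.exp (uf ℓ p a y l / 2) with ht
      have es : ∀ l, Real.exp (uf ℓ p a x l) = s l ^ 2 := fun l => by
        rw [hs, ← Real.exp_nat_mul]; congr 1; push_cast; ring
      have et : ∀ l, Real.exp (uf ℓ p a y l) = t l ^ 2 := fun l => by
        rw [ht, ← Real.exp_nat_mul]; congr 1; push_cast; ring
      have est : ∀ l, Real.exp ((uf ℓ p a x l + uf ℓ p a y l) / 2) = s l * t l := fun l => by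
        rw [hs, ht, ← Real.exp_add]; congr 1; ring
      simp_rw [es, et, est]
      have cs := Finset.sum_mul_sq_le_sq_mul_sq Finset.univ s t
      have am : 2 * ∑ l, s l * t l ≤ ∑ l, s l ^ 2 + ∑ l, t l ^ 2 := by
        rw [Finset.mul_sum, ← Finset.sum_add_distrib]
        exact Finset.sum_le_sum fun l _ => by nlinarith [sq_nonneg (s l - t l)]
      nlinarith

theorem foc (ℓ : ι → P →L[ℝ] E n) (p : ι → E n) {a : P} (ha : ∀ b, Lf ℓ p a ≤ Lf ℓ p b) (v : P) :
    ∫ y, ∑ i, wt ℓ p a i y * ⟪ℓ i v, y - p i⟫ ∂(gm n) = 0 := by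
  set F : ℝ → E n → ℝ := fun t y => sm (fun i => uf ℓ p a y i + t * ⟪ℓ i v, y - p i⟫) with hF
  have hF' : ∀ t, F t = fun y => sm (uf ℓ p (a + t • v) y) := by
    intro t
    funext y
    simp only [hF]
    congr 1
    funext i
    simp only [uf, map_add, map_smul, inner_add_left, real_inner_smul_left]
  set F' : ℝ → E n → ℝ := fun t y =>
    ∑ i, Real.exp (uf ℓ p a y i + t * ⟪ℓ i v, y - p i⟫) /
      (1 + ∑ l, Real.exp (uf ℓ p a y l + t * ⟪ℓ l v, y - p l⟫)) * ⟪ℓ i v, y - p i⟫ with hFd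
  have huc : ∀ l, Continuous fun y => uf ℓ p a y l := fun l =>
    (continuous_apply l).comp (uf_cont ℓ p a)
  have h := hasDerivAt_integral_of_dominated_loc_of_deriv_le (μ := gm n) (F := F) (F' := F')
    (x₀ := (0:ℝ)) (s := Set.univ) (bound := fun y => ∑ i, |⟪ℓ i v, y - p i⟫|)
    Filter.univ_mem
    (Filter.Eventually.of_forall fun t => by
      rw [hF' t]; exact (sm_int ℓ p _).aestronglyMeasurable)
    (by rw [hF' 0]; exact sm_int ℓ p _)
    (by
      have : Continuous (F' 0) := by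
        simp only [hFd]
        refine continuous_finsetSum _ fun i _ => ?_
        refine Continuous.mul (Continuous.div ?_ ?_ fun y => (sm_pos _).ne') (by fun_prop)
        · exact Real.continuous_exp.comp ((huc i).add (by fun_prop))
        · exact continuous_const.add (continuous_finsetSum _ fun l _ =>
            Real.continuous_exp.comp ((huc l).add (by fun_prop)))
      exact this.aestronglyMeasurable)
    (Filter.Eventually.of_forall fun y t _ => by
      simp only [hFd]
      refine (norm_sum_le _ _).trans (Finset.sum_le_sum fun i _ => ?_)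
      rw [norm_mul, Real.norm_eq_abs, Real.norm_eq_abs]
      refine mul_le_of_le_one_left (abs_nonneg _) ?_
      rw [abs_of_pos (div_pos (Real.exp_pos _) (sm_pos _)), div_le_one (sm_pos _)]
      have : Real.exp (uf ℓ p a y i + t * ⟪ℓ i v, y - p i⟫) ≤
          ∑ l, Real.exp (uf ℓ p a y l + t * ⟪ℓ l v, y - p l⟫) :=
        Finset.single_le_sum (f := fun l => Real.exp (uf ℓ p a y l + t * ⟪ℓ l v, y - p l⟫))
          (fun l _ => (Real.exp_pos _).le) (Finset.mem_univ i)
      linarith)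
    (integrable_finsetSum _ fun i _ => uf_abs_int ℓ p v i)
    (Filter.Eventually.of_forall fun y t _ => by
      exact sm_deriv (fun i => uf ℓ p a y i) (fun i => ⟪ℓ i v, y - p i⟫) t)
  have hmin : IsLocalMin (fun t => ∫ y, F t y ∂(gm n)) 0 := by
    refine Filter.Eventually.of_forall fun t => ?_
    simp only [hF']
    have := ha (a + t • v)
    simpa [Lf] using this
  have h0 := hmin.hasDerivAt_eq_zero h.2
  rw [← h0]
  refine integral_congr_ae (Filter.Eventually.of_forall fun y => ?_)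
  simp [hFd, wt]

end Minimiser

end Pool.Agent.TH985.TC
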