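import Pool.Agent.TH985.TC.Lind

/-!
# One step of the coupling
-/

set_option autoImplicit false

open MeasureTheory ProbabilityTheory
open scoped RealInnerProductSpace ENNReal

namespace Pool.Agent.TH985.TC

open Pool.Agent.PZ871 (E gm)

variable {n : ℕ}

/-- the tilted Gaussian measure -/
noncomputable def tilt (n : ℕ) (u : E n → ℝ) : Measure (E n) :=
  (gm n).withDensity (fun g => ENNReal.ofReal (u g / ∫ g, u g ∂(gm n)))

theorem tilt_meas {u : E n → ℝ} (hu : Wt n u) :
    Measurable (fun g => ENNReal.ofReal (u g / ∫ g, u g ∂(gm n))) :=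
  (hu.cont.measurable.div_const _).ennreal_ofReal

theorem tilt_prob {u : E n → ℝ} (hu : Wt n u) : IsProbabilityMeasure (tilt n u) := by
  constructor
  unfold tilt
  rw [withDensity_apply _ MeasurableSet.univ, Measure.restrict_univ,
    ← ofReal_integral_eq_lintegral_ofReal (hu.integrable.div_const _)
      (Filter.Eventually.of_forall fun g => (div_pos (hu.pos g) hu.integral_pos).le),
    integral_div, div_self hu.integral_pos.ne', ENNReal.ofReal_one]

theorem tilt_integral {F : Type*} [NormedAddCommGroup F] [NormedSpace ℝ F] {u : E n → ℝ}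
    (hu : Wt n u) (f : E n → F) :
    ∫ g, f g ∂(tilt n u) = (∫ g, u g ∂(gm n))⁻¹ • ∫ g, u g • f g ∂(gm n) := by
  unfold tilt
  rw [integral_withDensity_eq_integral_toReal_smul (tilt_meas hu)
    (Filter.Eventually.of_forall fun x => ENNReal.ofReal_lt_top), ← integral_smul]
  refine integral_congr_ae (Filter.Eventually.of_forall fun x => ?_)
  simp only
  rw [ENNReal.toReal_ofReal (div_pos (hu.pos x) hu.integral_pos).le, smul_smul, div_eq_inv_mul]

theorem tilt_integrable {F : Type*} [NormedAddCommGroup F] [NormedSpace ℝ F] {u : E n → ℝ}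
    (hu : Wt n u) (f : E n → F) (hf : Integrable (fun g => u g • f g) (gm n)) :
    Integrable f (tilt n u) := by
  unfold tilt
  rw [integrable_withDensity_iff_integrable_smul' (tilt_meas hu)
    (Filter.Eventually.of_forall fun x => ENNReal.ofReal_lt_top)]
  refine (hf.smul ((∫ g, u g ∂(gm n))⁻¹)).congr (Filter.Eventually.of_forall fun x => ?_)
  simp only [Pi.smul_apply]
  rw [ENNReal.toReal_ofReal (div_pos (hu.pos x) hu.integral_pos).le, smul_smul, div_eq_inv_mul]

/-- the constant in the third moment bound -/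
noncomputable def C3 (n : ℕ) : ℝ :=
  4 * (36 * (n:ℝ)^3 + Real.sqrt n ^ 3 * ∫ g : E n, ‖g‖^3 ∂(gm n)) + ∫ g : E n, ‖g‖^3 ∂(gm n)

theorem C3_nonneg (n : ℕ) : 0 ≤ C3 n := by
  unfold C3
  have : 0 ≤ ∫ g : E n, ‖g‖^3 ∂(gm n) := integral_nonneg fun g => by positivity
  positivity

theorem pi_int (n : ℕ) (i : Fin n) (φ : ℝ → ℝ) (hφ : Continuous φ) :
    ∫ x : Fin n → ℝ, φ (x i) ∂(Measure.pi fun _ : Fin n => gaussianReal 0 1) =
      ∫ t, φ t ∂(gaussianReal 0 1) := by
  have hmp : MeasurePreserving (fun x : Fin n → ℝ => x i)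
      (Measure.pi fun _ : Fin n => gaussianReal 0 1) (gaussianReal 0 1) :=
    measurePreserving_eval _ i
  have h := integral_map (μ := Measure.pi fun _ : Fin n => gaussianReal 0 1)
    (φ := fun x : Fin n → ℝ => x i) (measurable_pi_apply i).aemeasurable
    (f := φ) hφ.aestronglyMeasurable
  rw [hmp.map_eq] at h
  exact h.symm

theorem gauss_cov (n : ℕ) (i j : Fin n) :
    ∫ g : E n, g i * g j ∂(gm n) = if i = j then (1:ℝ) else 0 := by
  have h0 : gm n = (Measure.pi fun _ : Fin n => gaussianReal 0 1).map (WithLp.toLp 2) := by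
    unfold gm
    rw [map_pi_eq_stdGaussian]
  rw [h0, integral_map (by fun_prop) (by
    apply Continuous.aestronglyMeasurable
    fun_prop)]
  by_cases hij : i = j
  · subst hij
    simp only [if_true]
    have h1 := pi_int n i (fun t => t * t) (by fun_prop)
    rw [h1]
    have h2 := variance_id_gaussianReal (μ := 0) (v := 1)
    rw [variance_of_integral_eq_zero (by fun_prop) (by simp)] at h2
    simpa [pow_two] using h2
  · simp only [if_neg hij]
    have hind : iIndepFun (fun (k : Fin n) (x : Fin n → ℝ) => x k)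
        (Measure.pi fun _ : Fin n => gaussianReal 0 1) := iIndepFun_pi (X := fun _ => id)
          (fun _ => aemeasurable_id)
    have h1 := (hind.indepFun hij).integral_mul_eq_mul_integral
      (by exact (measurable_pi_apply i).aestronglyMeasurable)
      (by exact (measurable_pi_apply j).aestronglyMeasurable)
    simp only [Pi.mul_apply] at h1
    have h2 : ∫ x : Fin n → ℝ, x i ∂(Measure.pi fun _ : Fin n => gaussianReal 0 1) = 0 := by
      rw [pi_int n i (fun t => t) (by fun_prop)]
      simp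
    have e : ∀ x : Fin n → ℝ, (WithLp.toLp 2 x : E n) i * (WithLp.toLp 2 x : E n) j = x i * x j :=
      fun x => rfl
    simp_rw [e]
    rw [h1, h2, zero_mul]

theorem gauss_coord_int (n : ℕ) (i j : Fin n) : Integrable (fun g : E n => g i * g j) (gm n) := by
  have : IsGaussian (gm n) := by unfold gm; infer_instance
  have h2 : MemLp (fun g : E n => g) 2 (gm n) := IsGaussian.memLp_two_id
  have hi : ∀ k : Fin n, MemLp (fun ω : E n => ω k) 2 (gm n) := fun k =>
    (EuclideanSpace.proj k : E n →L[ℝ] ℝ).comp_memLp' h2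
  exact (hi i).integrable_mul (hi j)

theorem gauss_mean (n : ℕ) : ∫ g : E n, g ∂(gm n) = 0 := by
  unfold gm
  exact integral_id_stdGaussian

/-- moments of a centred Lipschitz map under a tilted measure -/
theorem D_moments {u : E n → ℝ} (hu : Wt n u) {τ : ℝ} (hτ : 0 < τ) {D : E n → E n}
    (hD : ∀ g g', ‖D g - D g'‖ ≤ Real.sqrt τ * ‖g - g'‖)
    (h0 : ∫ g, u g • D g ∂(gm n) = 0) (x : E n) :
    Integrable (fun g => ⟪x, D g⟫ ^ 2) (tilt n u) ∧
    ∫ g, ⟪x, D g⟫ ^ 2 ∂(tilt n u) ≤ 4 * τ * ‖x‖ ^ 2 ∧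
    Integrable (fun g => |⟪x, D g⟫| ^ 3) (tilt n u) ∧
    ∫ g, |⟪x, D g⟫| ^ 3 ∂(tilt n u) ≤ 36 * (Real.sqrt τ * ‖x‖) ^ 3 := by
  by_cases hx : x = 0
  · subst hx
    simp
  have hxn : 0 < ‖x‖ := norm_pos_iff.2 hx
  set r := Real.sqrt τ with hr
  have hr0 : 0 < r := Real.sqrt_pos.2 hτ
  have hr2 : r ^ 2 = τ := Real.sq_sqrt hτ.le
  set a : ℝ := r * ‖x‖ with ha
  have ha0 : 0 < a := mul_pos hr0 hxn
  have hDc : Continuous D := by
    refine (LipschitzWith.of_dist_le_mul (K := ⟨r, hr0.le⟩) fun x y => ?_).continuous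
    rw [dist_eq_norm, dist_eq_norm]
    exact hD x y
  have hDi : Integrable (fun g => u g • D g) (gm n) := by
    have hb : Integrable (fun g : E n => ‖D 0‖ + r * ‖g‖) (gm n) :=
      (integrable_const _).add ((norm_int n).const_mul _)
    refine hb.mono' (hu.cont.smul hDc).aestronglyMeasurable
      (Filter.Eventually.of_forall fun g => ?_)
    rw [norm_smul]
    refine (mul_le_of_le_one_left (norm_nonneg _) (hu.norm_le g)).trans ?_
    have h1 := hD g 0
    rw [sub_zero] at h1
    have h2 : ‖D g‖ ≤ ‖D g - D 0‖ + ‖D 0‖ := by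
      have := norm_add_le (D g - D 0) (D 0)
      rwa [sub_add_cancel] at this
    linarith
  set φ : E n → ℝ := fun g => ⟪x, D g⟫ / a with hφ
  have hφl : ∀ g g', |φ g - φ g'| ≤ ‖g - g'‖ := by
    intro g g'
    simp only [hφ]
    rw [← sub_div, ← inner_sub_right, abs_div, abs_of_pos ha0, div_le_iff₀ ha0]
    calc |⟪x, D g - D g'⟫| ≤ ‖x‖ * ‖D g - D g'‖ := abs_real_inner_le_norm _ _
      _ ≤ ‖x‖ * (r * ‖g - g'‖) := mul_le_mul_of_nonneg_left (hD g g') hxn.le
      _ = ‖g - g'‖ * a := by rw [ha]; ring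
  have hxi : Integrable (fun g => u g * ⟪x, D g⟫) (gm n) := by
    refine (hDi.const_inner (𝕜 := ℝ) x).congr (Filter.Eventually.of_forall fun g => ?_)
    simp only
    rw [real_inner_smul_right]
  have hφi : Integrable (fun g => u g * φ g) (gm n) := by
    refine (hxi.div_const a).congr (Filter.Eventually.of_forall fun g => ?_)
    simp only [hφ]
    ring
  have hφ0 : ∫ g, u g * φ g ∂(gm n) = 0 := by
    have h1 : ∫ g, u g * ⟪x, D g⟫ ∂(gm n) = 0 := by
      have h := (innerSL ℝ x).integral_comp_comm hDi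
      simp only [innerSL_apply_apply] at h
      rw [h0, inner_zero_right] at h
      rw [← h]
      refine integral_congr_ae (Filter.Eventually.of_forall fun g => ?_)
      simp only
      rw [real_inner_smul_right]
    have h2 : ∫ g, u g * φ g ∂(gm n) = (∫ g, u g * ⟪x, D g⟫ ∂(gm n)) / a := by
      rw [← integral_div]
      refine integral_congr_ae (Filter.Eventually.of_forall fun g => ?_)
      simp only [hφ]
      ring
    rw [h2, h1, zero_div]
  obtain ⟨m1, m2, m3, m4⟩ := moments hu φ hφl hφi hφ0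
  have e2 : ∀ g, ⟪x, D g⟫ ^ 2 = a ^ 2 * φ g ^ 2 := by
    intro g
    simp only [hφ]
    field_simp
  have e3 : ∀ g, |⟪x, D g⟫| ^ 3 = a ^ 3 * |φ g| ^ 3 := by
    intro g
    simp only [hφ]
    rw [abs_div, abs_of_pos ha0]
    field_simp
  have hI := hu.integral_pos
  refine ⟨?_, ?_, ?_, ?_⟩
  · apply tilt_integrable hu
    refine (m1.const_mul (a^2)).congr (Filter.Eventually.of_forall fun g => ?_)
    simp only [smul_eq_mul]
    rw [e2]
    ring
  · rw [tilt_integral hu]
    have : ∫ g, u g • ⟪x, D g⟫ ^ 2 ∂(gm n) = a^2 * ∫ g, u g * φ g ^ 2 ∂(gm n) := by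
      rw [← integral_const_mul]
      refine integral_congr_ae (Filter.Eventually.of_forall fun g => ?_)
      simp only [smul_eq_mul]
      rw [e2]
      ring
    rw [this, smul_eq_mul, inv_mul_le_iff₀ hI]
    have ha2 : a ^ 2 = τ * ‖x‖^2 := by rw [ha, mul_pow, hr2]
    calc a^2 * ∫ g, u g * φ g ^ 2 ∂(gm n) ≤ a^2 * (4 * ∫ g, u g ∂(gm n)) :=
          mul_le_mul_of_nonneg_left m2 (sq_nonneg a)
      _ = _ := by rw [ha2]; ring
  · apply tilt_integrable hu
    refine (m3.const_mul (a^3)).congr (Filter.Eventually.of_forall fun g => ?_)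
    simp only [smul_eq_mul]
    rw [e3]
    ring
  · rw [tilt_integral hu]
    have : ∫ g, u g • |⟪x, D g⟫| ^ 3 ∂(gm n) = a^3 * ∫ g, u g * |φ g| ^ 3 ∂(gm n) := by
      rw [← integral_const_mul]
      refine integral_congr_ae (Filter.Eventually.of_forall fun g => ?_)
      simp only [smul_eq_mul]
      rw [e3]
      ring
    rw [this, smul_eq_mul, inv_mul_le_iff₀ hI]
    calc a^3 * ∫ g, u g * |φ g| ^ 3 ∂(gm n) ≤ a^3 * (36 * ∫ g, u g ∂(gm n)) :=
          mul_le_mul_of_nonneg_left m4 (by positivity)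
      _ = _ := by ring

end Pool.Agent.TH985.TC
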