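import Pool.Agent.TH985.TC.Step

/-!
# The complementary noise
-/

set_option autoImplicit false

open MeasureTheory ProbabilityTheory
open scoped RealInnerProductSpace ENNReal MatrixOrder

namespace Pool.Agent.TH985.TC

open Pool.Agent.PZ871 (E gm)

variable {n : ℕ}

theorem exists_factor (M : Matrix (Fin n) (Fin n) ℝ) (hM : M.PosSemidef) :
    ∃ B : Matrix (Fin n) (Fin n) ℝ, ∀ i j, M i j = ∑ k, B k i * B k j := by
  obtain ⟨B, hB⟩ := CStarAlgebra.nonneg_iff_eq_star_mul_self.mp hM.nonneg
  refine ⟨B, fun i j => ?_⟩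
  rw [hB, Matrix.mul_apply]
  refine Finset.sum_congr rfl fun k _ => ?_
  simp [Matrix.star_apply]

/-- the linear map given by a matrix -/
noncomputable def eta (B : Matrix (Fin n) (Fin n) ℝ) (g : E n) : E n :=
  WithLp.toLp 2 (fun i => ∑ k, B k i * g k)

theorem eta_apply (B : Matrix (Fin n) (Fin n) ℝ) (g : E n) (i : Fin n) :
    eta B g i = ∑ k, B k i * g k := rfl

theorem eta_cont (B : Matrix (Fin n) (Fin n) ℝ) : Continuous (eta B) := by
  unfold eta
  fun_prop

theorem eta_norm (B : Matrix (Fin n) (Fin n) ℝ) (b : ℝ) (hb : ∑ i, ∑ k, B k i * B k i ≤ b)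
    (g : E n) : ‖eta B g‖ ≤ Real.sqrt b * ‖g‖ := by
  have h1 : ‖eta B g‖ ^ 2 ≤ b * ‖g‖ ^ 2 := by
    rw [EuclideanSpace.real_norm_sq_eq, EuclideanSpace.real_norm_sq_eq]
    calc ∑ i, eta B g i ^ 2 ≤ ∑ i, (∑ k, B k i * B k i) * ∑ k, g k ^ 2 := by
          refine Finset.sum_le_sum fun i _ => ?_
          rw [eta_apply]
          have := Finset.sum_mul_sq_le_sq_mul_sq Finset.univ (fun k => B k i) (fun k => g k)
          simpa [pow_two] using this
      _ = (∑ i, ∑ k, B k i * B k i) * ∑ k, g k ^ 2 := by rw [Finset.sum_mul]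
      _ ≤ _ := mul_le_mul_of_nonneg_right hb (Finset.sum_nonneg fun k _ => sq_nonneg _)
  have hb0 : 0 ≤ b := (Finset.sum_nonneg fun i _ => Finset.sum_nonneg fun k _ =>
    mul_self_nonneg _).trans hb
  have h2 : ‖eta B g‖ ^ 2 ≤ (Real.sqrt b * ‖g‖) ^ 2 := by
    rw [mul_pow, Real.sq_sqrt hb0]; exact h1
  exact (sq_le_sq₀ (norm_nonneg _) (by positivity)).1 h2

theorem eta_mean (B : Matrix (Fin n) (Fin n) ℝ) (i : Fin n) :
    Integrable (fun g => eta B g i) (gm n) ∧ ∫ g, eta B g i ∂(gm n) = 0 := by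
  have hk : ∀ k : Fin n, Integrable (fun g : E n => g k) (gm n) ∧
      ∫ g : E n, g k ∂(gm n) = 0 := by
    intro k
    have h1 := (EuclideanSpace.proj k : E n →L[ℝ] ℝ).integrable_comp (id_int n)
    have h2 := (EuclideanSpace.proj k : E n →L[ℝ] ℝ).integral_comp_comm (id_int n)
    rw [gauss_mean, map_zero] at h2
    exact ⟨h1, h2⟩
  simp only [eta_apply]
  refine ⟨integrable_finsetSum _ fun k _ => (hk k).1.const_mul _, ?_⟩
  rw [integral_finsetSum _ fun k _ => (hk k).1.const_mul _]
  simp [integral_const_mul, (hk _).2]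

theorem eta_cov (B : Matrix (Fin n) (Fin n) ℝ) (i j : Fin n) :
    Integrable (fun g => eta B g i * eta B g j) (gm n) ∧
      ∫ g, eta B g i * eta B g j ∂(gm n) = ∑ k, B k i * B k j := by
  have e : ∀ g : E n, eta B g i * eta B g j =
      ∑ k, ∑ l, (B k i * B l j) * (g k * g l) := by
    intro g
    rw [eta_apply, eta_apply, Finset.sum_mul_sum]
    refine Finset.sum_congr rfl fun k _ => Finset.sum_congr rfl fun l _ => ?_
    ring
  simp only [e]
  refine ⟨integrable_finsetSum _ fun k _ => integrable_finsetSum _ fun l _ =>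
    (gauss_coord_int n k l).const_mul _, ?_⟩
  rw [integral_finsetSum _ fun k _ => integrable_finsetSum _ fun l _ =>
    (gauss_coord_int n k l).const_mul _]
  refine Finset.sum_congr rfl fun k _ => ?_
  rw [integral_finsetSum _ fun l _ => (gauss_coord_int n k l).const_mul _]
  simp only [integral_const_mul, gauss_cov]
  simp

theorem cube_sum (x : E n) : ‖x‖ ^ 3 ≤ (n:ℝ)^2 * ∑ i, |x i| ^ 3 := by
  have h1 : ‖x‖ ≤ ∑ i, |x i| := by
    have hx : x = ∑ i, x i • (EuclideanSpace.single i (1:ℝ) : E n) := by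
      ext k
      simp [Finset.sum_apply, Pi.single_apply]
    conv_lhs => rw [hx]
    refine (norm_sum_le _ _).trans (Finset.sum_le_sum fun i _ => ?_)
    rw [norm_smul]
    simp
  have h2 : ‖x‖ ^ 3 ≤ (∑ i, |x i|) ^ 3 := pow_le_pow_left₀ (norm_nonneg _) h1 3
  refine h2.trans ?_
  rcases Nat.eq_zero_or_pos n with h0 | h0
  · subst h0
    simp
  have h3 := pow_sum_div_card_le_sum_pow (s := (Finset.univ : Finset (Fin n)))
    (f := fun i => |x i|) (n := 2) (fun i _ => abs_nonneg _)
  simp only [Finset.card_univ, Fintype.card_fin] at h3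
  have hn : (0:ℝ) < (n:ℝ)^2 := by positivity
  rw [div_le_iff₀ hn] at h3
  simp only [Nat.reduceAdd] at h3
  linarith

theorem cube_add {a b : ℝ} (ha : 0 ≤ a) (hb : 0 ≤ b) : (a + b) ^ 3 ≤ 4 * (a ^ 3 + b ^ 3) := by
  nlinarith [mul_nonneg (add_nonneg ha hb) (sq_nonneg (a - b))]

/-- the coupling of one step -/
theorem step_gd {u : E n → ℝ} (hu : Wt n u) {τ : ℝ} (hτ : 0 < τ) {D : E n → E n}
    (hD : ∀ g g', ‖D g - D g'‖ ≤ Real.sqrt τ * ‖g - g'‖)
    (h0 : ∫ g, u g • D g ∂(gm n) = 0) :
    ∃ η : E n → E n, Continuous η ∧ ∀ σ : ℝ, (σ = 1 ∨ σ = -1) →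
      Gd ((tilt n u).prod (gm n)) (fun p : E n × E n => (1/2:ℝ) • D p.1 + σ • η p.2) τ
        (C3 n * Real.sqrt τ ^ 3) := by
  haveI := tilt_prob hu
  set P1 := tilt n u with hP1
  have hDc : Continuous D := by
    refine (LipschitzWith.of_dist_le_mul (K := ⟨Real.sqrt τ, Real.sqrt_nonneg _⟩)
      fun x y => ?_).continuous
    rw [dist_eq_norm, dist_eq_norm]
    exact hD x y
  have hinner : ∀ (i : Fin n) (y : E n), ⟪(EuclideanSpace.single i (1:ℝ) : E n), y⟫ = y i := by
    intro i y
    rw [EuclideanSpace.inner_single_left]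
    simp
  -- third moment of D
  have hD3 : ∀ i : Fin n, Integrable (fun g => |D g i| ^ 3) P1 ∧
      ∫ g, |D g i| ^ 3 ∂P1 ≤ 36 * Real.sqrt τ ^ 3 := by
    intro i
    have h := D_moments hu hτ hD h0 (EuclideanSpace.single i (1:ℝ))
    simp only [hinner] at h
    refine ⟨h.2.2.1, ?_⟩
    simpa using h.2.2.2
  have hDn : Integrable (fun g => ‖D g‖ ^ 3) P1 ∧
      ∫ g, ‖D g‖ ^ 3 ∂P1 ≤ 36 * (n:ℝ)^3 * Real.sqrt τ ^ 3 := by
    have hs : Integrable (fun g => (n:ℝ)^2 * ∑ i, |D g i| ^ 3) P1 :=
      (integrable_finsetSum _ fun i _ => (hD3 i).1).const_mul _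
    have hi : Integrable (fun g => ‖D g‖ ^ 3) P1 := by
      refine hs.mono' (hDc.norm.pow 3).aestronglyMeasurable
        (Filter.Eventually.of_forall fun g => ?_)
      rw [Real.norm_of_nonneg (by positivity)]
      exact cube_sum _
    refine ⟨hi, (integral_mono hi hs fun g => cube_sum _).trans ?_⟩
    rw [integral_const_mul, integral_finsetSum _ fun i _ => (hD3 i).1]
    calc (n:ℝ)^2 * ∑ i : Fin n, ∫ g, |D g i| ^ 3 ∂P1
        ≤ (n:ℝ)^2 * ∑ i : Fin n, 36 * Real.sqrt τ ^ 3 :=
          mul_le_mul_of_nonneg_left (Finset.sum_le_sum fun i _ => (hD3 i).2) (by positivity)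
      _ = _ := by
        rw [Finset.sum_const, Finset.card_univ, Fintype.card_fin, nsmul_eq_mul]
        ring
  have hDmem : MemLp D 3 P1 := by
    rw [← integrable_norm_rpow_iff hDc.aestronglyMeasurable (by norm_num) (by norm_num)]
    refine hDn.1.congr (Filter.Eventually.of_forall fun g => ?_)
    simp only
    norm_num
  have hD2 : MemLp D 2 P1 := hDmem.mono_exponent (by norm_num)
  have hDi2 : ∀ k : Fin n, MemLp (fun g => D g k) 2 P1 := fun k =>
    (EuclideanSpace.proj k : E n →L[ℝ] ℝ).comp_memLp' hD2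
  have hDij : ∀ i j : Fin n, Integrable (fun g => D g i * D g j) P1 := fun i j =>
    (hDi2 i).integrable_mul (hDi2 j)
  have hD1 : Integrable D P1 := hDmem.integrable (by norm_num)
  have hDmean : ∫ g, D g ∂P1 = 0 := by
    rw [hP1, tilt_integral hu, h0, smul_zero]
  have hDimean : ∀ i : Fin n, Integrable (fun g => D g i) P1 ∧ ∫ g, D g i ∂P1 = 0 := by
    intro i
    have h1 := (EuclideanSpace.proj i : E n →L[ℝ] ℝ).integrable_comp hD1
    have h2 := (EuclideanSpace.proj i : E n →L[ℝ] ℝ).integral_comp_comm hD1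
    rw [hDmean, map_zero] at h2
    exact ⟨h1, h2⟩
  -- the complementary covariance matrix
  obtain ⟨M, hM⟩ : ∃ M : Matrix (Fin n) (Fin n) ℝ, ∀ i j, M i j =
      (if i = j then τ else 0) - (1/4) * ∫ g, D g i * D g j ∂P1 :=
    ⟨Matrix.of fun i j => (if i = j then τ else 0) - (1/4) * ∫ g, D g i * D g j ∂P1,
      fun i j => rfl⟩
  have hMpos : M.PosSemidef := by
    refine Matrix.PosSemidef.of_dotProduct_mulVec_nonneg ?_ fun x => ?_
    · ext i j
      rw [Matrix.conjTranspose_apply, star_trivial, hM, hM]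
      have e1 : (if j = i then τ else 0) = if i = j then τ else 0 := by
        by_cases h : i = j
        · simp [h]
        · simp [h, Ne.symm h]
      have e2 : ∫ g, D g j * D g i ∂P1 = ∫ g, D g i * D g j ∂P1 :=
        integral_congr_ae (Filter.Eventually.of_forall fun g => mul_comm _ _)
      rw [e1, e2]
    · set X : E n := WithLp.toLp 2 x with hX
      have hXi : ∀ i, X i = x i := fun i => rfl
      have h := (D_moments hu hτ hD h0 X).2.1
      have e1 : ∫ g, ⟪X, D g⟫ ^ 2 ∂P1 = ∑ i, ∑ j, (x i * x j) * ∫ g, D g i * D g j ∂P1 := by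
        have e : ∀ g, ⟪X, D g⟫ ^ 2 = ∑ i, ∑ j, (x i * x j) * (D g i * D g j) := by
          intro g
          rw [PiLp.inner_apply, pow_two, Finset.sum_mul_sum]
          refine Finset.sum_congr rfl fun i _ => Finset.sum_congr rfl fun j _ => ?_
          simp only [hXi, RCLike.inner_apply, conj_trivial]
          ring
        simp_rw [e]
        rw [integral_finsetSum _ fun i _ => integrable_finsetSum _ fun j _ =>
          (hDij i j).const_mul _]
        refine Finset.sum_congr rfl fun i _ => ?_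
        rw [integral_finsetSum _ fun j _ => (hDij i j).const_mul _]
        simp only [integral_const_mul]
      have e2 : ‖X‖ ^ 2 = ∑ i, x i ^ 2 := by
        rw [EuclideanSpace.real_norm_sq_eq]
      have e3 : star x ⬝ᵥ M.mulVec x =
          τ * ∑ i, x i ^ 2 - (1/4) * ∑ i, ∑ j, (x i * x j) * ∫ g, D g i * D g j ∂P1 := by
        simp only [dotProduct, Matrix.mulVec, hM, star_trivial, Pi.star_apply]
        rw [Finset.mul_sum, Finset.mul_sum, ← Finset.sum_sub_distrib]
        refine Finset.sum_congr rfl fun i _ => ?_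
        rw [Finset.mul_sum, Finset.mul_sum]
        have e4 : ∀ j, x i * (((if i = j then τ else 0) -
            (1/4) * ∫ g, D g i * D g j ∂P1) * x j) =
            (if i = j then τ * x i * x j else 0) -
              (1/4) * ((x i * x j) * ∫ g, D g i * D g j ∂P1) := by
          intro j
          split_ifs <;> ring
        simp_rw [e4]
        rw [Finset.sum_sub_distrib]
        simp
        ring
      rw [e3, ← e1, ← e2]
      rw [hP1]
      linarith
  obtain ⟨B, hB⟩ := exists_factor M hMpos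
  have htr : ∑ i, ∑ k, B k i * B k i ≤ n * τ := by
    calc ∑ i, ∑ k, B k i * B k i = ∑ i, M i i := by
          refine Finset.sum_congr rfl fun i _ => (hB i i).symm
      _ ≤ ∑ i : Fin n, τ := by
          refine Finset.sum_le_sum fun i _ => ?_
          simp only [hM, if_true]
          have : 0 ≤ ∫ g, D g i * D g i ∂P1 := integral_nonneg fun g => mul_self_nonneg _
          linarith
      _ = n * τ := by simp
  have hηn : ∀ g, ‖eta B g‖ ^ 3 ≤ (Real.sqrt n * Real.sqrt τ) ^ 3 * ‖g‖^3 := by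
    intro g
    have h1 := eta_norm B _ htr g
    rw [Real.sqrt_mul (Nat.cast_nonneg n)] at h1
    rw [← mul_pow]
    exact pow_le_pow_left₀ (norm_nonneg _) h1 3
  have hη3 : Integrable (fun g => ‖eta B g‖ ^ 3) (gm n) ∧
      ∫ g, ‖eta B g‖ ^ 3 ∂(gm n) ≤ (Real.sqrt n * Real.sqrt τ) ^ 3 * ∫ g : E n, ‖g‖^3 ∂(gm n) := by
    have hi : Integrable (fun g => ‖eta B g‖ ^ 3) (gm n) := by
      refine ((norm_cube_int n).const_mul ((Real.sqrt n * Real.sqrt τ) ^ 3)).mono'
        ((eta_cont B).norm.pow 3).aestronglyMeasurable (Filter.Eventually.of_forall fun g => ?_)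
      rw [Real.norm_of_nonneg (by positivity)]
      exact hηn g
    refine ⟨hi, ?_⟩
    rw [← integral_const_mul]
    exact integral_mono hi ((norm_cube_int n).const_mul _) hηn
  have hη1 : Integrable (eta B) (gm n) := by
    refine ((norm_int n).const_mul (Real.sqrt (n * τ))).mono' (eta_cont B).aestronglyMeasurable
      (Filter.Eventually.of_forall fun g => eta_norm B _ htr g)
  have hηmean : ∫ g, eta B g ∂(gm n) = 0 := by
    ext i
    have h2 := (EuclideanSpace.proj i : E n →L[ℝ] ℝ).integral_comp_comm hη1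
    have h3 := (eta_mean B i).2
    simp only [EuclideanSpace.coe_proj] at h2
    rw [h3] at h2
    simpa using h2.symm
  refine ⟨eta B, eta_cont B, fun σ hσ => ?_⟩
  have hσ2 : σ * σ = 1 := by rcases hσ with h | h <;> rw [h] <;> norm_num
  have hσn : |σ| = 1 := by rcases hσ with h | h <;> rw [h] <;> norm_num
  set ζ : E n × E n → E n := fun p => (1/2:ℝ) • D p.1 + σ • eta B p.2 with hζ
  have hζc : Continuous ζ := ((hDc.comp continuous_fst).const_smul (1/2:ℝ)).add
    (((eta_cont B).comp continuous_snd).const_smul σ)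
  have hζb : ∀ p, ‖ζ p‖ ^ 3 ≤ 4 * (‖D p.1‖ ^ 3 + ‖eta B p.2‖ ^ 3) := by
    intro p
    have h1 : ‖ζ p‖ ≤ ‖D p.1‖ + ‖eta B p.2‖ := by
      refine (norm_add_le _ _).trans (add_le_add ?_ ?_)
      · rw [norm_smul]
        refine mul_le_of_le_one_left (norm_nonneg _) ?_
        norm_num
      · rw [norm_smul, Real.norm_eq_abs, hσn, one_mul]
    exact (pow_le_pow_left₀ (norm_nonneg _) h1 3).trans (cube_add (norm_nonneg _) (norm_nonneg _))
  have k1 : Integrable (fun p : E n × E n => ‖D p.1‖ ^ 3) (P1.prod (gm n)) :=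
    hDn.1.comp_fst (gm n)
  have k2 : Integrable (fun p : E n × E n => ‖eta B p.2‖ ^ 3) (P1.prod (gm n)) :=
    hη3.1.comp_snd P1
  have kb : Integrable (fun p : E n × E n => 4 * (‖D p.1‖ ^ 3 + ‖eta B p.2‖ ^ 3))
      (P1.prod (gm n)) := (k1.add k2).const_mul 4
  have kζ : Integrable (fun p => ‖ζ p‖ ^ 3) (P1.prod (gm n)) := by
    refine kb.mono' (hζc.norm.pow 3).aestronglyMeasurable
      (Filter.Eventually.of_forall fun p => ?_)
    rw [Real.norm_of_nonneg (by positivity)]
    exact hζb p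
  refine ⟨inferInstance, ?_, ?_, ?_, ?_⟩
  · rw [← integrable_norm_rpow_iff hζc.aestronglyMeasurable (by norm_num) (by norm_num)]
    refine kζ.congr (Filter.Eventually.of_forall fun g => ?_)
    simp only
    norm_num
  · have a1 : Integrable (fun p : E n × E n => (1/2:ℝ) • D p.1) (P1.prod (gm n)) :=
      (hD1.comp_fst (gm n)).smul (1/2:ℝ)
    have a2 : Integrable (fun p : E n × E n => σ • eta B p.2) (P1.prod (gm n)) :=
      (hη1.comp_snd P1).smul σ
    simp only [hζ]
    rw [integral_add a1 a2, integral_smul, integral_smul, integral_fun_fst, integral_fun_snd,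
      hDmean, hηmean]
    simp
  · intro i j
    have a1 : Integrable (fun p : E n × E n => D p.1 i * D p.1 j) (P1.prod (gm n)) :=
      (hDij i j).comp_fst (gm n)
    have a2 : Integrable (fun p : E n × E n => eta B p.2 i * eta B p.2 j) (P1.prod (gm n)) :=
      (eta_cov B i j).1.comp_snd P1
    have a3 : Integrable (fun p : E n × E n => D p.1 i * eta B p.2 j) (P1.prod (gm n)) :=
      (hDimean i).1.mul_prod (eta_mean B j).1
    have a4 : Integrable (fun p : E n × E n => D p.1 j * eta B p.2 i) (P1.prod (gm n)) :=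
      (hDimean j).1.mul_prod (eta_mean B i).1
    have e : ∀ p : E n × E n, ζ p i * ζ p j = (1/4) * (D p.1 i * D p.1 j) +
        (eta B p.2 i * eta B p.2 j) + (σ/2) * (D p.1 i * eta B p.2 j) +
        (σ/2) * (D p.1 j * eta B p.2 i) := by
      intro p
      simp only [hζ, PiLp.add_apply, PiLp.smul_apply, smul_eq_mul]
      have : ∀ a b c d : ℝ, (1/2 * a + σ * b) * (1/2 * c + σ * d) =
          (1/4) * (a * c) + (σ * σ) * (b * d) + (σ/2) * (a * d) + (σ/2) * (c * b) := by
        intro a b c d; ring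
      rw [this, hσ2]
      ring
    simp_rw [e]
    have b1 := a1.const_mul (1/4 : ℝ)
    have b3 := a3.const_mul (σ/2 : ℝ)
    have b4 := a4.const_mul (σ/2 : ℝ)
    have b12 : Integrable (fun p : E n × E n => (1/4) * (D p.1 i * D p.1 j) +
        (eta B p.2 i * eta B p.2 j)) (P1.prod (gm n)) := b1.add a2
    have b123 : Integrable (fun p : E n × E n => (1/4) * (D p.1 i * D p.1 j) +
        (eta B p.2 i * eta B p.2 j) + (σ/2) * (D p.1 i * eta B p.2 j)) (P1.prod (gm n)) :=
      b12.add b3
    rw [integral_add b123 b4, integral_add b12 b3, integral_add b1 a2, integral_const_mul,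
      integral_const_mul, integral_const_mul,
      integral_prod_mul (fun x => D x i) (fun y => eta B y j),
      integral_prod_mul (fun x => D x j) (fun y => eta B y i),
      (hDimean i).2, (hDimean j).2,
      integral_fun_fst (fun x => D x i * D x j), integral_fun_snd (fun y => eta B y i * eta B y j),
      (eta_cov B i j).2, ← hB i j]
    simp [hM]
  · have h1 := integral_mono kζ kb hζb
    refine h1.trans ?_
    rw [integral_const_mul, integral_add k1 k2, integral_fun_fst (fun x => ‖D x‖^3),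
      integral_fun_snd (fun y => ‖eta B y‖^3)]
    simp only [probReal_univ, one_smul]
    unfold C3
    have h2 := hDn.2
    have h3 := hη3.2
    rw [mul_pow] at h3
    have h4 : 0 ≤ (∫ g : E n, ‖g‖^3 ∂(gm n)) * Real.sqrt τ ^ 3 :=
      mul_nonneg (integral_nonneg fun g => by positivity) (by positivity)
    nlinarith

end Pool.Agent.TH985.TC
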